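import Pool.Agent.REV.StmtsX3
import Pool.Agent.Helper51_REV.APX

set_option autoImplicit false

/-!
# Squad REV, part X3: the approximating profiles for a body of revolution, dimension `3`, `i = 2`
-/

open MeasureTheory Module Set Filter
open scoped RealInnerProductSpace Pointwise Topology ENNReal

namespace Pool.Agent.REV.H13

open Pool.Agent.Helper55_PB Pool.Agent.Helper28_PB Pool.Agent.BPH Pool.Agent.REV
open Pool.Agent.REV.H51 (RA_smul RB_smul TT_smul0 prf_smul hz_zon_smul exists_perp)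

theorem C1_zero3 {n : ℕ} (hn : 3 ≤ n) : C1 n (n - 1) = 0 := by
  unfold C1
  rw [(Nat.descFactorial_eq_zero_iff_lt).2 (by omega)]
  simp

section

variable {E : Type} [NormedAddCommGroup E] [InnerProductSpace ℝ E] [FiniteDimensional ℝ E]
  [MeasurableSpace E] [BorelSpace E]

/-- the profiles of the orbit -/
theorem orbU3 (zst : Zst3Stmt) (geo0 : Geo0Stmt) (h4 : 3 ≤ finrank ℝ E) {K : Set E} {c : ℝ}
    (hK : Centred 0 K c) {e : E} (he : ‖e‖ = 1) {f₀ : ℝ → ℝ} (hp : Prf f₀)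
    (hf₀ : Dens (zon e f₀)) {t₀ δ : ℝ} (ht₀ : 0 < t₀) (hδ : 0 ≤ δ)
    (hN : Nr K (zon e f₀) t₀ δ) :
    ∃ (F : ℕ → ℝ → ℝ) (s : ℕ → ℝ), (∀ j, Prf (F j)) ∧ (∀ j, 0 < s j) ∧
      (∀ j, StU (finrank ℝ E) (C2 (finrank ℝ E) (finrank ℝ E - 1)) (s j) (F j) (F (j + 1))) ∧
      ∀ j, Nr K (zon e (F j)) 1 (((finrank ℝ E - 1 : ℕ) : ℝ) ^ j * δ) := by
  classical
  set n := finrank ℝ E with hn
  obtain ⟨cc, hcc, hst⟩ := zst E (n - 1) h4 (by omega) (by omega)
  -- the recursion on densities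
  have hex : ∀ p : ℝ → ℝ, Prf p → Dens (zon e p) → ∀ t δ' : ℝ, 0 < t → 0 ≤ δ' →
      Nr K (zon e p) t δ' → ∃ t' : ℝ, 0 < t' ∧
      Nr K (zon e (fun x => cc / ZZ (n - 1) (zon e p) * TT n (n - 1) 0 (C2 n (n - 1)) p x)) t'
        (((n - 1 : ℕ) : ℝ) * δ') := by
    intro p hp hD t δ' ht hδ' hNr
    obtain ⟨_, _, h3, h4'⟩ := hst e p he hp hD
    rw [← hn, C1_zero3 h4] at h3 h4'
    obtain ⟨t', ht', hw⟩ := geo0 (n - 1) (by omega) (by omega) K c hK (zon e p) _ hD h3 h4' δ' t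
      hδ' ht hNr
    exact ⟨t', ht', hw⟩
  let G : ℕ → ℝ → ℝ := fun j => Nat.rec f₀
    (fun _ p x => cc / ZZ (n - 1) (zon e p) * TT n (n - 1) 0 (C2 n (n - 1)) p x) j
  have hG0 : G 0 = f₀ := rfl
  have hGs : ∀ j, G (j + 1) = fun x =>
      cc / ZZ (n - 1) (zon e (G j)) * TT n (n - 1) 0 (C2 n (n - 1)) (G j) x := fun _ => rfl
  have hGp : ∀ j, Prf (G j) ∧ Dens (zon e (G j)) := by
    intro j
    induction j with
    | zero => exact ⟨hp, hf₀⟩
    | succ j ih =>
      obtain ⟨_, h2, h3, _⟩ := hst e (G j) he ih.1 ih.2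
      rw [← hn, C1_zero3 h4] at h2 h3
      rw [hGs]
      exact ⟨h2, h3⟩
  have hGt : ∀ j, ∃ t : ℝ, 0 < t ∧ Nr K (zon e (G j)) t (((n - 1 : ℕ) : ℝ) ^ j * δ) := by
    intro j
    induction j with
    | zero => exact ⟨t₀, ht₀, by rw [pow_zero, one_mul]; exact hN⟩
    | succ j ih =>
      obtain ⟨t, ht, hNr⟩ := ih
      have h0 : 0 ≤ ((n - 1 : ℕ) : ℝ) ^ j * δ := by positivity
      obtain ⟨t', ht', h⟩ := hex (G j) (hGp j).1 (hGp j).2 t _ ht h0 hNr
      refine ⟨t', ht', ?_⟩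
      rw [hGs, pow_succ', mul_assoc]
      exact h
  choose t ht hNr using hGt
  refine ⟨fun j x => t j * G j x,
    fun j => t (j + 1) * (cc / ZZ (n - 1) (zon e (G j))) / t j ^ (n - 1), ?_, ?_, ?_, ?_⟩
  · exact fun j => prf_smul (hGp j).1 (ht j).le
  · intro j
    have hZ : 0 < ZZ (n - 1) (zon e (G j)) := (hst e (G j) he (hGp j).1 (hGp j).2).1
    have h1 := ht (j + 1)
    have h2 := ht j
    positivity
  · intro j x _
    have h2 := ht j
    show t (j + 1) * G (j + 1) x = t (j + 1) * (cc / ZZ (n - 1) (zon e (G j))) / t j ^ (n - 1) *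
      TT n (n - 1) 0 (C2 n (n - 1)) (fun x => t j * G j x) x
    rw [TT_smul0 (by omega), hGs]
    field_simp
  · intro j w
    have h := hNr j w
    rw [one_mul, hz_zon_smul]
    exact h

/-- **APX3** -/
theorem apx3 (zak : ZAKStmt) (g1 : G1Stmt) (zst : Zst3Stmt) (cpo : Cpo3Stmt) (geo0 : Geo0Stmt)
    (hzb : Hzb3Stmt) (val : Val3Stmt) : Apx3Stmt := by
  intro E _ _ _ _ _ h3 K c hK e m he hm hem hrev
  have h4 : 3 ≤ finrank ℝ E := by omega
  have hnt : Nontrivial E := Module.nontrivial_of_finrank_pos (R := ℝ) (by omega)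
  have hcont := continuous_supportFn hK.cc.cpt hK.cc.ne
  obtain ⟨ρ, hρ, hball⟩ := exists_ball_zero hK.zero_mem
  have hpos : ∀ w : E, ‖w‖ = 1 → 0 < supportFn K w := by
    intro w hw
    have := le_supportFn_of_ball hK.cc.cpt hρ.le hball w
    rw [hw, mul_one] at this
    exact hρ.trans_le this
  obtain ⟨κ0, κ1, hκ0, hκ1, hH⟩ := hzb E h3
  obtain ⟨_, _, hC2, _⟩ := cpo 3 2 le_rfl (by norm_num) (by norm_num)
  have key : ∀ k : ℕ, ∃ (F : ℕ → ℝ → ℝ) (s : ℕ → ℝ), (∀ j, Prf (F j)) ∧ (∀ j, 0 < s j) ∧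
      (∀ j, StU 3 (C2 3 2) (s j) (F j) (F (j + 1))) ∧
      ∀ j, Nr K (zon e (F j)) 1 (((finrank ℝ E - 1 : ℕ) : ℝ) ^ j * (1 / ((k : ℝ) + 1))) := by
    intro k
    have e2 : ∀ (s : ℝ) (f g : ℝ → ℝ),
        StU (finrank ℝ E) (C2 (finrank ℝ E) (finrank ℝ E - 1)) s f g → StU 3 (C2 3 2) s f g := by
      intro s f g h
      rw [h3] at h
      exact h
    have hδ0 : (0 : ℝ) < 1 / ((k : ℝ) + 1) := by positivity
    have hδ1 : 1 / ((k : ℝ) + 1) ≤ 1 := by
      rw [div_le_one (by positivity)]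
      linarith [Nat.cast_nonneg (α := ℝ) k]
    obtain ⟨f₀, t₀, hf₀, ht₀, hnear⟩ := g1 K hK.cc hK.zero_mem
      (zak 0 K c (by omega) (by omega) hK) e he hrev hK.even _ hδ0 hδ1
    have hf₀' : Dens (zon e (H11.cut f₀)) := by
      rw [H11.zon_cut]
      exact hf₀
    obtain ⟨F, s, o1, o2, o3, o4⟩ := orbU3 zst geo0 h4 hK he (H11.prf_cut e he f₀ hf₀) hf₀' ht₀
      hδ0.le (by rw [H11.zon_cut]; exact hnear)
    exact ⟨F, s, o1, o2, fun j => e2 _ _ _ (o3 j), o4⟩
  choose F s hFp hs hstep hN using key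
  -- convergence of the support functions
  have hlim : ∀ j : ℕ, ∀ w : E, Tendsto (fun k => hz (zon e (F k j)) w) atTop
      (𝓝 (supportFn K w)) := by
    intro j w
    have ha : Tendsto (fun k : ℕ => ((finrank ℝ E - 1 : ℕ) : ℝ) ^ j * (1 / ((k : ℝ) + 1))) atTop
        (𝓝 0) := by
      have := (tendsto_one_div_add_atTop_nhds_zero_nat (𝕜 := ℝ)).const_mul
        (((finrank ℝ E - 1 : ℕ) : ℝ) ^ j)
      rwa [mul_zero] at this
    have h1 : Tendsto (fun k : ℕ => Real.exp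
        (-(((finrank ℝ E - 1 : ℕ) : ℝ) ^ j * (1 / ((k : ℝ) + 1)))) * supportFn K w) atTop
        (𝓝 (supportFn K w)) := by
      have h := ((Real.continuous_exp.tendsto _).comp ha.neg).mul_const (supportFn K w)
      rw [neg_zero, Real.exp_zero, one_mul] at h
      exact h
    have h2 : Tendsto (fun k : ℕ => Real.exp
        (((finrank ℝ E - 1 : ℕ) : ℝ) ^ j * (1 / ((k : ℝ) + 1))) * supportFn K w) atTop
        (𝓝 (supportFn K w)) := by
      have h := ((Real.continuous_exp.tendsto _).comp ha).mul_const (supportFn K w)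
      rw [Real.exp_zero, one_mul] at h
      exact h
    refine tendsto_of_tendsto_of_tendsto_of_le_of_le h1 h2 ?_ ?_
    · intro k
      obtain ⟨_, hb⟩ := hN k j w
      rw [one_mul] at hb
      show Real.exp (-(((finrank ℝ E - 1 : ℕ) : ℝ) ^ j * (1 / ((k : ℝ) + 1)))) *
        supportFn K w ≤ hz (zon e (F k j)) w
      set a := ((finrank ℝ E - 1 : ℕ) : ℝ) ^ j * (1 / ((k : ℝ) + 1))
      calc Real.exp (-a) * supportFn K w ≤ Real.exp (-a) *
            (Real.exp a * hz (zon e (F k j)) w) :=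
            mul_le_mul_of_nonneg_left hb (Real.exp_pos _).le
        _ = hz (zon e (F k j)) w := by
            rw [← mul_assoc, ← Real.exp_add, neg_add_cancel, Real.exp_zero, one_mul]
    · intro k
      obtain ⟨hb, _⟩ := hN k j w
      rw [one_mul] at hb
      show hz (zon e (F k j)) w ≤ Real.exp (((finrank ℝ E - 1 : ℕ) : ℝ) ^ j *
        (1 / ((k : ℝ) + 1))) * supportFn K w
      set a := ((finrank ℝ E - 1 : ℕ) : ℝ) ^ j * (1 / ((k : ℝ) + 1))
      calc hz (zon e (F k j)) w = Real.exp a * (Real.exp (-a) * hz (zon e (F k j)) w) := by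
            rw [← mul_assoc, ← Real.exp_add, add_neg_cancel, Real.exp_zero, one_mul]
        _ ≤ Real.exp a * supportFn K w :=
            mul_le_mul_of_nonneg_left hb (Real.exp_pos _).le
  have hray : Tendsto (fun b : ℝ => supportFn K (e + b • m) / b) atTop (𝓝 (supportFn K m)) := by
    have h1 : Tendsto (fun b : ℝ => supportFn K (b⁻¹ • e + m)) atTop (𝓝 (supportFn K m)) := by
      have h2 : Tendsto (fun b : ℝ => b⁻¹ • e + m) atTop (𝓝 ((0 : ℝ) • e + m)) :=
        (tendsto_inv_atTop_zero.smul_const e).add_const m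
      rw [zero_smul, zero_add] at h2
      exact (hcont.tendsto m).comp h2
    refine h1.congr' ?_
    filter_upwards [eventually_gt_atTop 0] with b hb
    have h3 : b⁻¹ • e + m = b⁻¹ • (e + b • m) := by
      rw [smul_add, smul_smul, inv_mul_cancel₀ hb.ne', one_smul]
    rw [h3, supportFn_smul hK.cc.cpt hK.cc.ne (inv_pos.2 hb).le, div_eq_inv_mul]
  have h0 : supportFn K (e + (0 : ℝ) • m) = supportFn K e := by rw [zero_smul, add_zero]
  have hmain := val (C2 3 2) κ0 κ1 (supportFn K m)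
    (fun b => supportFn K (e + b • m)) F s hC2 hκ0 hκ1 (hpos m hm)
    (by show 0 < supportFn K (e + (0 : ℝ) • m); rw [h0]; exact hpos e he) hFp hs
    (fun k j _ => hstep k j) (by
      intro j _ b hb
      refine (hlim j (e + b • m)).congr ?_
      intro k
      exact (hH e m he hm hem (F k j) (hFp k j)).1 b hb) (by
      intro j _
      refine (hlim j m).congr ?_
      intro k
      exact (hH e m he hm hem (F k j) (hFp k j)).2) hray
  rcases hmain with h | ⟨f, hf, h⟩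
  · left
    intro b hb
    have := h b hb
    rwa [h0] at this
  · right
    refine ⟨f, hf, fun b hb => ?_⟩
    rw [h b hb, (hH e m he hm hem f hf).1 b hb]

end

end Pool.Agent.REV.H13
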