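import Pool.Agent.REV.StmtsG4
import Pool.Agent.Helper91_REV.PJW

set_option autoImplicit false

/-!
# Squad REV, row PJW3: polar coordinates in the half disc, all exponents
-/

open MeasureTheory Module Set Filter
open scoped RealInnerProductSpace Pointwise Topology ENNReal

namespace Pool.Agent.REV.H13

open Pool.Agent.REV.H91

theorem pj_subst3 (m : ℕ) (ψ : ℝ → ℝ) :
    ∫ θ in Ioo (0 : ℝ) Real.pi, Real.sin θ ^ m * ψ (Real.cos θ) =
      ∫ x in (-1 : ℝ)..1, (1 - x ^ 2) ^ (((m : ℝ) - 1) / 2) * ψ x := by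
  rw [intervalIntegral.integral_of_le (by norm_num : (-1 : ℝ) ≤ 1), integral_Ioc_eq_integral_Ioo,
    ← pj_image, integral_image_eq_integral_abs_deriv_smul (f' := fun θ => -Real.sin θ)
      measurableSet_Ioo (fun θ _ => (Real.hasDerivAt_cos θ).hasDerivWithinAt)
      (Real.injOn_cos.mono Ioo_subset_Icc_self)]
  refine setIntegral_congr_fun measurableSet_Ioo ?_
  rintro θ ⟨h1, h2⟩
  have hs := Real.sin_pos_of_pos_of_lt_pi h1 h2
  simp only [smul_eq_mul, abs_neg]
  rw [abs_of_pos hs]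
  have e1 : 1 - Real.cos θ ^ 2 = Real.sin θ ^ 2 := by
    have := Real.sin_sq_add_cos_sq θ
    linarith
  have e2 : (Real.sin θ ^ 2) ^ (((m : ℝ) - 1) / 2) = Real.sin θ ^ ((m : ℝ) - 1) := by
    rw [← Real.rpow_natCast (Real.sin θ) 2, ← Real.rpow_mul hs.le]
    congr 1
    push_cast
    ring
  rw [e1, e2]
  have e3 : Real.sin θ ^ m = Real.sin θ * Real.sin θ ^ ((m : ℝ) - 1) := by
    rw [Real.rpow_sub_one hs.ne', Real.rpow_natCast]
    field_simp
  rw [e3]
  ring

/-- (PJW3) -/
theorem pjw3 : Pjw3Stmt := by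
  intro m ψ hψ
  calc ∫ z : ℝ, ∫ r in Ioi (0 : ℝ), (if r ^ 2 + z ^ 2 < 1 then
      r ^ m * ψ (z / Real.sqrt (r ^ 2 + z ^ 2)) else 0)
      = ∫ z : ℝ, ∫ r : ℝ, pjF m ψ (z, r) := by
        congr 1
        funext z
        exact pj_inner m ψ z
    _ = ∫ p : ℝ × ℝ, pjF m ψ p := by
        rw [Measure.volume_eq_prod, integral_prod _ (by
          rw [← Measure.volume_eq_prod]; exact pjF_integrable m hψ)]
    _ = ∫ p in polarCoord.target, p.1 • pjF m ψ (polarCoord.symm p) :=
        (integral_comp_polarCoord_symm (pjF m ψ)).symm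
    _ = ∫ p in polarCoord.target, (if p.1 < 1 then p.1 ^ (m + 1) else 0) *
        (if 0 < p.2 then Real.sin p.2 ^ m * ψ (Real.cos p.2) else 0) :=
        setIntegral_congr_fun (polarCoord.open_target.measurableSet)
          (fun p hp => pj_polar m ψ p hp)
    _ = (∫ R in Ioi (0 : ℝ), (if R < 1 then R ^ (m + 1) else 0)) *
        ∫ θ in Ioo (-Real.pi) Real.pi,
          (if 0 < θ then Real.sin θ ^ m * ψ (Real.cos θ) else 0) := by
        rw [polarCoord_target, Measure.volume_eq_prod]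
        exact setIntegral_prod_mul (fun R : ℝ => if R < 1 then R ^ (m + 1) else 0)
          (fun θ : ℝ => if 0 < θ then Real.sin θ ^ m * ψ (Real.cos θ) else 0) _ _
    _ = _ := by
        rw [pj_radial, pj_angular, pj_subst3 m ψ]

end Pool.Agent.REV.H13
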