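import Pool.Agent.REV.StmtsX3
import Pool.Agent.Helper59_REV.HZR

set_option autoImplicit false

/-!
# REV, row HZR3: the support function determines `RA`, dimension at least `3`
-/

open MeasureTheory Module Set Filter
open scoped RealInnerProductSpace Topology

namespace Pool.Agent.REV.H13

open Pool.Agent.BPH
open Pool.Agent.REV.H59 (sign_deriv hz_deriv)

theorem hzr3 (dhz : Dhz3Stmt) : Hzr3Stmt := by
  intro E _ _ _ _ _ h4 e he φ ψ κ0 hφ hψ heq c hc
  have hnt : Nontrivial E := Module.nontrivial_of_finrank_pos (R := ℝ) (by omega)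
  obtain ⟨κ, hκ, hd⟩ := dhz E h4
  -- a unit vector orthogonal to `e`
  obtain ⟨m, hm, hem⟩ : ∃ m : E, ‖m‖ = 1 ∧ ⟪e, m⟫ = 0 := by
    have h1 : (ℝ ∙ e)ᗮ ≠ ⊥ := by
      intro h
      have h2 := Submodule.finrank_add_finrank_orthogonal (ℝ ∙ e)
      rw [h, finrank_bot] at h2
      have h3 := finrank_span_singleton (K := ℝ) (v := e) (by
        intro h0; rw [h0, norm_zero] at he; exact zero_ne_one he)
      omega
    obtain ⟨y, hy, hy0⟩ := Submodule.exists_mem_ne_zero_of_ne_bot h1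
    refine ⟨nrm y, ?_, ?_⟩
    · rw [nrm, norm_smul, norm_inv, norm_norm, inv_mul_cancel₀ (norm_ne_zero_iff.mpr hy0)]
    · rw [Submodule.mem_orthogonal_singleton_iff_inner_right] at hy
      rw [nrm, inner_smul_right, hy, mul_zero]
  set t := Real.sqrt (1 - c ^ 2) with ht
  have htc : t ^ 2 + c ^ 2 = 1 := by
    rw [ht, Real.sq_sqrt (by nlinarith [hc.1, hc.2])]
    ring
  set u := t • e + c • m with hu
  have hu1 : ‖u‖ ^ 2 = 1 := by
    rw [hu, @norm_add_sq_real, norm_smul, norm_smul, he, hm, inner_smul_left, inner_smul_right, hem]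
    simp only [Real.norm_eq_abs, mul_one, sq_abs, mul_zero, add_zero]
    exact htc
  have hu0 : u ≠ 0 := by
    intro h
    rw [h, norm_zero] at hu1
    norm_num at hu1
  have hzm : ∀ χ : ℝ → ℝ, BM χ → Measurable (zon e χ) ∧ ∃ C, ∀ x, |zon e χ x| ≤ C := by
    intro χ hχ
    obtain ⟨hm', C, hC⟩ := hχ
    exact ⟨hm'.comp (by fun_prop), C, fun x => hC _⟩
  obtain ⟨hm1, C1, hC1⟩ := hzm φ hφ
  obtain ⟨hm2, C2, hC2⟩ := hzm ψ hψ
  have hd1 := hz_deriv hm1 hC1 hu0 hm
  have hd2 := (hz_deriv hm2 hC2 hu0 hm).const_mul κ0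
  have hfun : (fun s : ℝ => hz (zon e φ) (u + s • m)) =
      fun s : ℝ => κ0 * hz (zon e ψ) (u + s • m) := funext fun s => heq _
  rw [hfun] at hd1
  have huniq := hd1.unique hd2
  rw [hd e m he hm hem t c htc hc.1 φ hφ, hd e m he hm hem t c htc hc.1 ψ hψ] at huniq
  have hkc : κ * c ≠ 0 := mul_ne_zero hκ.ne' hc.1.ne'
  have h5 : κ * c * RA (finrank ℝ E) φ c = κ * c * (κ0 * RA (finrank ℝ E) ψ c) := by
    linear_combination huniq
  exact mul_left_cancel₀ hkc h5

end Pool.Agent.REV.H13
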