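import Pool.Agent.Helper13_REV.APX3
import Pool.Agent.Helper13_REV.HZR3
import Pool.Agent.Helper51_REV.TOPV

set_option autoImplicit false

/-!
# Squad REV, part X3: bodies of revolution in dimension `3`, `i = 2`: ball or cylinder
-/

open MeasureTheory Module Set Filter
open scoped RealInnerProductSpace Pointwise Topology ENNReal

namespace Pool.Agent.REV.H13

open Pool.Agent.Helper55_PB Pool.Agent.Helper28_PB Pool.Agent.BPH Pool.Agent.REV
open Pool.Agent.REV.H63 (sign_mul_self' exists_perp' ae_lt)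
open Pool.Agent.REV.H51 (zon_apply zon_of_le hz_one supportFn_inv hz_zon_inv hz_hom hz_zon_cont
  exists_perp revB_of_translate IsRevolution)

section

variable {E : Type} [NormedAddCommGroup E] [InnerProductSpace ℝ E] [FiniteDimensional ℝ E]
  [MeasurableSpace E] [BorelSpace E]

/-- **Bounded zonal densities, `i = n - 1`.**  `K` is the zonoid of a bounded zonal profile, and the
step of the density of `K` is again a density of a multiple of `K`. -/
theorem ball_of_profile3 (sp : SPH) (pin : PINStmt) (dhz : Dhz3Stmt) (hzr : Hzr3Stmt)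
    (zst : Zst3Stmt) (cpo : Cpo3Stmt) (ufd : Uf3Stmt) (h3 : finrank ℝ E = 3) {K : Set E}
    (hcc : CC K) (h0 : (0 : E) ∈ interior K)
    (geo : ∀ f f' : E → ℝ, Dens f → Dens f' → IsStep (finrank ℝ E - 1) f f' → ∀ t : ℝ, 0 < t →
      Nr K f t 0 → ∃ t' : ℝ, 0 < t' ∧ Nr K f' t' 0)
    {e : E} (he : ‖e‖ = 1) {φ : ℝ → ℝ} (hφ : Prf φ) {t : ℝ} (ht : 0 < t)
    (hK : ∀ w : E, supportFn K w = t * hz (zon e φ) w) :
    ∃ r : ℝ, 0 < r ∧ K = Metric.closedBall (0 : E) r := by
  have h4 : 3 ≤ finrank ℝ E := by omega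
  have hnt : Nontrivial E := Module.nontrivial_of_finrank_pos (R := ℝ) (by omega)
  have hprob : IsProbabilityMeasure (sph E) := sp.prob
  set n := finrank ℝ E with hn
  -- positivity of the support function
  obtain ⟨r, hr, hball⟩ := exists_ball_zero h0
  have hrK : ∀ w : E, ‖w‖ = 1 → 0 < supportFn K w := by
    intro w hw
    have := le_supportFn_of_ball hcc.cpt hr.le hball w
    rw [hw, mul_one] at this
    linarith
  obtain ⟨w₀, hw₀, hew₀⟩ := exists_perp' (E := E) (by omega) e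
  obtain ⟨M, hM⟩ := hφ.bdd
  have hzm : ∀ ψ : ℝ → ℝ, Measurable ψ → Measurable (zon e ψ) := by
    intro ψ hψ
    exact hψ.comp (by fun_prop)
  have hint : ∀ ψ : ℝ → ℝ, Prf ψ → Integrable (zon e ψ) (sph E) := by
    intro ψ hψ
    obtain ⟨M', hM'⟩ := hψ.bdd
    refine Integrable.of_bound (hzm ψ hψ.meas).aestronglyMeasurable M' ?_
    refine ae_of_all _ fun x => ?_
    rw [Real.norm_eq_abs, zon_apply, abs_of_nonneg (hψ.nonneg _)]
    exact hM' _
  -- the mass
  set m₀ : ℝ := ∫ x, zon e φ x ∂sph E with hm₀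
  have hm₀pos : 0 < m₀ := by
    have h1 : 0 < hz (zon e φ) w₀ := by
      have h2 := hrK w₀ hw₀
      rw [hK w₀] at h2
      exact (pos_iff_pos_of_mul_pos h2).1 ht
    have h3 : hz (zon e φ) w₀ ≤ m₀ := by
      unfold hz
      rw [hm₀]
      refine integral_mono_of_nonneg (ae_of_all _ fun x => mul_nonneg (abs_nonneg _)
        (hφ.nonneg _)) (hint φ hφ) ?_
      filter_upwards [sp.norm (E := E)] with x hx
      have h5 : |⟪w₀, x⟫| ≤ 1 := by
        have := abs_real_inner_le_norm w₀ x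
        rwa [hw₀, hx, one_mul] at this
      exact mul_le_of_le_one_left (hφ.nonneg _) h5
    linarith
  set φ₁ : ℝ → ℝ := fun s => m₀⁻¹ * φ s with hφ₁
  have hPrf : Prf φ₁ := by
    refine ⟨hφ.meas.const_mul _, fun s => mul_nonneg (inv_nonneg.2 hm₀pos.le) (hφ.nonneg s),
      m₀⁻¹ * M, fun s => mul_le_mul_of_nonneg_left (hM s) (inv_nonneg.2 hm₀pos.le)⟩
  have hzon₁ : zon e φ₁ = fun x => m₀⁻¹ * zon e φ x := rfl
  have hDens : Dens (zon e φ₁) := by
    refine ⟨hzm _ hPrf.meas, fun x => hPrf.nonneg _, ?_, ?_⟩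
    · obtain ⟨M', hM'⟩ := hPrf.bdd
      exact ⟨M', fun x => hM' _⟩
    · rw [hzon₁, integral_const_mul, ← hm₀]
      field_simp
  have hhz₁ : ∀ w, hz (zon e φ₁) w = m₀⁻¹ * hz (zon e φ) w := by
    intro w
    unfold hz
    rw [← integral_const_mul]
    congr 1
    ext x
    rw [hzon₁]
    ring
  have hK₁ : ∀ w, supportFn K w = (t * m₀) * hz (zon e φ₁) w := by
    intro w
    rw [hK w, hhz₁]
    field_simp
  obtain ⟨c0, hc0, hst⟩ := zst E (n - 1) h4 (by omega) (by omega)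
  obtain ⟨hZ, hPrf', hDens', hStep⟩ := hst e φ₁ he hPrf hDens
  obtain ⟨-, -, hC2, -⟩ := cpo n (n - 1) h4 (by omega) (by omega)
  rw [C1_zero3 h4] at hPrf' hDens' hStep
  set D := C2 n (n - 1) with hD
  set ζ : ℝ := c0 / ZZ (n - 1) (zon e φ₁) with hζ
  have hζ0 : 0 < ζ := div_pos hc0 hZ
  set f₁ : ℝ → ℝ := fun s => ζ * TT n (n - 1) 0 D φ₁ s with hf₁
  have hNr : Nr K (zon e φ₁) (t * m₀) 0 := by
    intro w
    rw [neg_zero, Real.exp_zero, one_mul, hK₁ w]
    exact ⟨le_rfl, le_rfl⟩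
  obtain ⟨t', ht', hNr'⟩ := geo _ _ hDens hDens' hStep (t * m₀) (mul_pos ht hm₀pos) hNr
  have hK' : ∀ w, supportFn K w = t' * hz (zon e f₁) w := by
    intro w
    have := hNr' w
    rw [neg_zero, Real.exp_zero, one_mul] at this
    exact le_antisymm this.2 this.1
  have hBM : ∀ ψ : ℝ → ℝ, Prf ψ → BM ψ := by
    intro ψ hψ
    obtain ⟨M', hM'⟩ := hψ.bdd
    exact ⟨hψ.meas, M', fun s => by rw [abs_of_nonneg (hψ.nonneg _)]; exact hM' s⟩
  have htm : 0 < t * m₀ := mul_pos ht hm₀pos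
  have hRA : ∀ c ∈ Ioc (0 : ℝ) 1, RA n φ₁ c = (t' / (t * m₀)) * RA n f₁ c := by
    apply hzr E h4 e he φ₁ f₁ (t' / (t * m₀)) (hBM _ hPrf) (hBM _ hPrf')
    intro w
    have h1 := hK₁ w
    rw [hK' w] at h1
    rw [div_mul_eq_mul_div, h1]
    field_simp
  have hRA' : ∀ c ∈ Ioc (0 : ℝ) 1,
      RA n φ₁ c = (t' / (t * m₀) * ζ) * RA n (TT n (n - 1) 0 D φ₁) c := by
    intro c hc
    have h1 : RA n f₁ c = ζ * RA n (TT n (n - 1) 0 D φ₁) c := H63.RA_smul
    rw [hRA c hc, h1]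
    ring
  have hRA1 : 0 < RA n φ₁ 1 := by
    obtain ⟨κ, hκ, hdz⟩ := dhz E h4
    have h1 := hdz e w₀ he hw₀ hew₀ 0 1 (by norm_num) one_pos φ₁ (hBM _ hPrf)
    have h2 : ∫ x, Real.sign ⟪(0 : ℝ) • e + (1 : ℝ) • w₀, x⟫ * ⟪w₀, x⟫ * zon e φ₁ x ∂sph E =
        hz (zon e φ₁) w₀ := by
      unfold hz
      congr 1
      ext x
      rw [zero_smul, zero_add, one_smul, sign_mul_self']
    rw [h2, one_mul] at h1
    have h3 : 0 < hz (zon e φ₁) w₀ := by
      have h4 := hrK w₀ hw₀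
      rw [hK₁ w₀] at h4
      exact (pos_iff_pos_of_mul_pos h4).1 htm
    rw [h1] at h3
    exact (pos_iff_pos_of_mul_pos h3).1 hκ
  have hn3 : n = 3 := h3
  have hTT : TT n (n - 1) 0 D φ₁ = TT 3 2 0 D φ₁ := by
    rw [hn3]
  rw [hTT, hn3] at hRA'
  rw [hn3] at hRA1
  obtain ⟨k, hk, hconst⟩ := ufd D (t' / (t * m₀) * ζ) φ₁ hC2 (by positivity) hPrf.meas
    hPrf.nonneg hPrf.bdd hRA1 hRA'
  obtain ⟨b, hb, hone⟩ := hz_one (E := E) sp pin
  have hcst : ∀ u : E, ‖u‖ = 1 → supportFn K u = t' * (ζ * k * b) := by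
    intro u hu
    rw [hK' u, ← hone u hu]
    congr 1
    unfold hz
    rw [← integral_const_mul]
    apply integral_congr_ae
    filter_upwards [ae_lt sp (E := E) (by omega) he] with x hx
    have h1 : zon e f₁ x = ζ * k := by
      rw [zon_of_le he _ hx.1.le]
      show ζ * TT n (n - 1) 0 D φ₁ |⟪e, x⟫| = ζ * k
      rw [hTT, hconst _ ⟨abs_nonneg _, hx.2⟩]
    rw [h1]
    ring
  have hpos : 0 < t' * (ζ * k * b) := by positivity
  refine ⟨t' * (ζ * k * b), hpos, Subset.antisymm ?_ ?_⟩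
  · exact subset_closedBall_of_max hcc hpos.le (fun w hw => (hcst w hw).le)
  · exact closedBall_subset_of_min hcc (fun w hw => (hcst w hw).ge)

/-- **Bodies of revolution, `i = n - 1`.** -/
theorem rev_top3 (sp : SPH) (pin : PINStmt) (zak : ZAKStmt) (g1 : G1Stmt) (zst : Zst3Stmt)
    (cpo : Cpo3Stmt) (geo0 : Geo0Stmt) (hzb : Hzb3Stmt) (val : Val3Stmt) (det : DetStmt)
    (cyi : CyiStmt) (dhz : Dhz3Stmt) (hzr : Hzr3Stmt) (ufd : Uf3Stmt) (h4 : finrank ℝ E = 3)
    {K : Set E} {c : ℝ} (hK : Centred 0 K c) {e : E} (he : ‖e‖ = 1) (hrev : RevB e K) :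
    (∃ r : ℝ, 0 < r ∧ K = Metric.closedBall (0 : E) r) ∨
      ∃ H R : ℝ, 0 < H ∧ 0 < R ∧ K = cyl e H R := by
  have hnt : Nontrivial E := Module.nontrivial_of_finrank_pos (R := ℝ) (by omega)
  obtain ⟨m, hm, hem⟩ := exists_perp (E := E) (by omega) e
  have hcont := continuous_supportFn hK.cc.cpt hK.cc.ne
  obtain ⟨ρ, hρ, hball⟩ := exists_ball_zero hK.zero_mem
  have hpos : ∀ w : E, ‖w‖ = 1 → 0 < supportFn K w := by
    intro w hw
    have := le_supportFn_of_ball hK.cc.cpt hρ.le hball w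
    rw [hw, mul_one] at this
    exact hρ.trans_le this
  have hhom : ∀ (t : ℝ) (w : E), supportFn K (t • w) = |t| * supportFn K w := by
    intro t w
    rcases le_total 0 t with ht | ht
    · rw [supportFn_smul hK.cc.cpt hK.cc.ne ht, abs_of_nonneg ht]
    · have h1 : t • w = (-t) • (-w) := by rw [neg_smul, smul_neg, neg_neg]
      rw [h1, supportFn_smul hK.cc.cpt hK.cc.ne (neg_nonneg.2 ht), hK.even, abs_of_nonpos ht]
  rcases apx3 zak g1 zst cpo geo0 hzb val E h4 K c hK e m he hm hem hrev with h | ⟨f, hf, h⟩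
  · -- the cylinder
    right
    refine ⟨supportFn K e, supportFn K m, hpos e he, hpos m hm, ?_⟩
    refine cyi (by omega) e _ _ he (hpos e he) (hpos m hm) K hK.cc ?_
    intro w _
    refine det E e m he hm hem (supportFn K)
      (fun w => supportFn K e * |⟪e, w⟫| + supportFn K m * ‖w - ⟪e, w⟫ • e‖) hcont (by fun_prop)
      hhom ?_ (fun T hT => supportFn_inv hrev T hT) ?_ ?_ w
    · intro t w
      have h1 : t • w - ⟪e, t • w⟫ • e = t • (w - ⟪e, w⟫ • e) := by
        rw [inner_smul_right, smul_sub, smul_smul]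
      show supportFn K e * |⟪e, t • w⟫| + supportFn K m * ‖t • w - ⟪e, t • w⟫ • e‖ =
        |t| * (supportFn K e * |⟪e, w⟫| + supportFn K m * ‖w - ⟪e, w⟫ • e‖)
      rw [h1, norm_smul, inner_smul_right, abs_mul, Real.norm_eq_abs]
      ring
    · intro T hT w
      have h2 : ⟪e, T w⟫ = ⟪e, w⟫ := by
        conv_lhs => rw [← hT]
        rw [LinearIsometryEquiv.inner_map_map]
      have h3 : T w - ⟪e, w⟫ • e = T (w - ⟪e, w⟫ • e) := by
        rw [map_sub, map_smul, hT]
      simp only [h2, h3, LinearIsometryEquiv.norm_map]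
    · intro b hb
      have h4 : ⟪e, e + b • m⟫ = 1 := by
        rw [inner_add_right, real_inner_self_eq_norm_sq, he, inner_smul_right, hem]
        norm_num
      have h5 : e + b • m - (1 : ℝ) • e = b • m := by rw [one_smul, add_sub_cancel_left]
      simp only [h4, h5, abs_one, norm_smul, hm, Real.norm_eq_abs, abs_of_nonneg hb]
      rw [h b hb]
      ring
  · -- a bounded zonal density
    left
    have hall : ∀ w : E, supportFn K w = 1 * hz (zon e f) w := by
      intro w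
      rw [one_mul]
      exact det E e m he hm hem (supportFn K) (hz (zon e f)) hcont (hz_zon_cont sp hf) hhom
        (fun t w => hz_hom _ t w) (fun T hT => supportFn_inv hrev T hT)
        (fun T hT => hz_zon_inv sp f hf.meas T hT) h w
    refine ball_of_profile3 sp pin dhz hzr zst cpo ufd h4 hK.cc hK.zero_mem ?_ he hf one_pos
      hall
    intro g g' hg hg' hs t ht hN
    obtain ⟨t', ht', hw⟩ := geo0 (finrank ℝ E - 1) (by omega) (by omega) K c hK g g' hg hg' hs 0 t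
      le_rfl ht hN
    rw [mul_zero] at hw
    exact ⟨t', ht', hw⟩

/-- **Bodies of revolution, `i = n - 1`**, for solutions which are not centred -/
theorem rev_top_sol3 (sp : SPH) (pin : PINStmt) (zak : ZAKStmt) (g1 : G1Stmt) (zst : Zst3Stmt)
    (cpo : Cpo3Stmt) (geo0 : Geo0Stmt) (hzb : Hzb3Stmt) (val : Val3Stmt) (det : DetStmt)
    (cyi : CyiStmt) (dhz : Dhz3Stmt) (hzr : Hzr3Stmt) (ufd : Uf3Stmt) (c0g : C0gStmt)
    (cen : CenStmt) (cyg : CygStmt) (h4 : finrank ℝ E = 3) {K L : Set E} (hK : IsConvexBody K)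
    (hL : IsProjectionBodyOfOrder (finrank ℝ E - 1) K L) (hKL : Homothetic K L)
    (hrev : IsRevolution K) :
    (∃ (x : E) (r : ℝ), 0 < r ∧ K = Metric.closedBall x r) ∨
      ∃ (x e : E) (R : ℝ), ‖e‖ = 1 ∧ 0 < R ∧ K = (fun y => x + y) ''
        cyl e (R * Real.sqrt (ballVol (finrank ℝ E - 1) / (2 * ballVol (finrank ℝ E - 2)))) R := by
  obtain ⟨a, K', c, hK', hG⟩ := cen K L (by omega) hK hL hKL
  have hC : Centred 0 K' c := c0g (by omega) K' c hG
  obtain ⟨x₀, e, he, hinv⟩ := hrev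
  have hR : RevB e K' := revB_of_translate hK' hC.cc hC.even hinv
  have h1 : K = (fun y => -a + y) '' K' := by
    rw [hK', image_image]
    simp
  rcases rev_top3 sp pin zak g1 zst cpo geo0 hzb val det cyi dhz hzr ufd h4 hC he hR with
    ⟨r, hr, hr'⟩ | ⟨H, R, hH, hR', hc⟩
  · left
    refine ⟨-a, r, hr, ?_⟩
    rw [h1, hr']
    ext z
    constructor
    · rintro ⟨y, hy, rfl⟩
      rw [Metric.mem_closedBall, dist_zero_right] at hy
      rw [Metric.mem_closedBall, dist_eq_norm]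
      simpa using hy
    · intro hz
      rw [Metric.mem_closedBall, dist_eq_norm] at hz
      refine ⟨a + z, ?_, by simp⟩
      rw [Metric.mem_closedBall, dist_zero_right]
      rwa [sub_neg_eq_add, add_comm] at hz
  · right
    refine ⟨-a, e, R, he, hR', ?_⟩
    have h2 := (cyg (by omega) e H R he hH hR').1 ⟨c, hc ▸ hG⟩
    rw [h1, hc, h2]

/-- converse: the cylinder is a solution of order `n - 1` -/
theorem sol_of_cyl3 (soc : SocStmt) (cyg : CygStmt)
    (h4 : 2 ≤ finrank ℝ E) (x e : E) (he : ‖e‖ = 1) {R : ℝ} (hR : 0 < R) {K : Set E}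
    (hK : K = (fun y => x + y) ''
        cyl e (R * Real.sqrt (ballVol (finrank ℝ E - 1) / (2 * ballVol (finrank ℝ E - 2)))) R) :
    IsConvexBody K ∧ ∃ L : Set E, IsProjectionBodyOfOrder (finrank ℝ E - 1) K L ∧
      Homothetic K L := by
  have h1 : 0 < ballVol (finrank ℝ E - 1) := ballVol_pos _
  have h2 : 0 < ballVol (finrank ℝ E - 2) := ballVol_pos _
  have hH : 0 < R * Real.sqrt (ballVol (finrank ℝ E - 1) / (2 * ballVol (finrank ℝ E - 2))) := by
    positivity
  obtain ⟨c, hc⟩ := (cyg (E := E) (by omega) e _ R he hH hR).2 rfl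
  exact soc K _ x c (by omega) hK hc

end

end Pool.Agent.REV.H13
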