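import Pool.Agent.Helper51_REV.ASMV
import Pool.Agent.Helper13_REV.PJW3
import Pool.Agent.Helper13_REV.LWH3
import Pool.Agent.Helper13_REV.TOPV3
import Pool.Agent.Helper79_REV.LWU3
import Pool.Agent.Helper60_REV.LWV3
import Pool.Agent.Helper15_REV.TTP3
import Pool.Agent.Helper77_REV.CPO3
import Pool.Agent.Helper3_REV.ZST3
import Pool.Agent.Helper65_REV.DHI3
import Pool.Agent.Helper65_REV.DHA3
import Pool.Agent.Helper67_REV.DHZ3
import Pool.Agent.Helper85_REV.HZB3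
import Pool.Agent.Helper36_REV.V3All

set_option autoImplicit false

/-!
# Squad REV: assembly in dimension `3`, `i = 2`
-/

open MeasureTheory Module Set Filter
open scoped RealInnerProductSpace Pointwise Topology ENNReal

namespace Pool.Agent.REV.Asm3

open Pool.Agent.Helper55_PB Pool.Agent.Helper28_PB Pool.Agent.BPH Pool.Agent.REV Pool.Agent.REV.Asm

theorem bLwh : Lwh3Stmt := H13.lwh3 aRad aRle H13.pjw3
theorem bLwu : Lwu3Stmt := H79.lwu3 aMsu bLwh
theorem bLwv : Lwv3Stmt := H60.lwv3 aMsu bLwh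
theorem bCpo : Cpo3Stmt := H77.cpo3
theorem bDha : Dha3Stmt := H65.dha3 H65.dhi3
theorem bDhz : Dhz3Stmt := H67.dhz3 aSle bLwv bDha
theorem bHzb : Hzb3Stmt := H85.hzb3 bDhz aLaw H36.vm3All
theorem bHzr : Hzr3Stmt := H13.hzr3 bDhz

variable {E : Type} [NormedAddCommGroup E] [InnerProductSpace ℝ E] [FiniteDimensional ℝ E]
  [MeasurableSpace E] [BorelSpace E]

/-- dimension `3`, `i = 2`, with the rows ZQQ3 and UF3 as hypotheses -/
theorem top3_of_last (zqq : Zqq3Stmt) (ufd : Uf3Stmt) (h3 : finrank ℝ E = 3) {K L : Set E}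
    (hK : IsConvexBody K) (hL : IsProjectionBodyOfOrder (finrank ℝ E - 1) K L)
    (hKL : Homothetic K L) (hrev : H51.IsRevolution K) :
    (∃ (x : E) (r : ℝ), 0 < r ∧ K = Metric.closedBall x r) ∨
      ∃ (x e : E) (R : ℝ), ‖e‖ = 1 ∧ 0 < R ∧ K = (fun y => x + y) ''
        cyl e (R * Real.sqrt (ballVol (finrank ℝ E - 1) / (2 * ballVol (finrank ℝ E - 2)))) R :=
  H13.rev_top_sol3 aSph aPin aZak aG1 (H3.zst3 aDeq zqq H15.ttp3 bCpo) bCpo aGeo0 bHzb
    H36.val3All aDet aCyi bDhz bHzr ufd aC0g aCen aCyg h3 hK hL hKL hrev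

/-- the cylinder is a solution in every dimension at least `2` -/
theorem sol_cyl3 (h4 : 2 ≤ finrank ℝ E) (x e : E) (he : ‖e‖ = 1) {R : ℝ} (hR : 0 < R) {K : Set E}
    (hK : K = (fun y => x + y) ''
        cyl e (R * Real.sqrt (ballVol (finrank ℝ E - 1) / (2 * ballVol (finrank ℝ E - 2)))) R) :
    IsConvexBody K ∧ ∃ L : Set E, IsProjectionBodyOfOrder (finrank ℝ E - 1) K L ∧
      Homothetic K L :=
  H13.sol_of_cyl3 aSoc aCyg h4 x e he hR hK

end Pool.Agent.REV.Asm3
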