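import Pool.Agent.Helper13_REV.ASM3
import Pool.Agent.Helper52_REV.ZQQ3
import Pool.Agent.Helper65_REV.A13All
import Pool.Agent.Helper77_REV.YDR
import Pool.Agent.Helper50_REV.RBC
import Pool.Agent.Helper21_REV.KI3
import Pool.Agent.Helper65_REV.KN3
import Pool.Agent.Helper70_REV.KT3
import Pool.Agent.Helper66_REV.JE3
import Pool.Agent.Helper63_REV.YR3
import Pool.Agent.Helper89_REV.RT3
import Pool.Agent.Helper76_REV.RP3
import Pool.Agent.Helper29_REV.YM3
import Pool.Agent.Helper62_REV.WL3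
import Pool.Agent.Helper12_REV.EL3
import Pool.Agent.Helper35_REV.SA3
import Pool.Agent.Helper63_REV.SD3
import Pool.Agent.Helper11_REV.SM3
import Pool.Agent.Helper43_REV.IM3
import Pool.Agent.Helper16_REV.FC3
import Pool.Agent.Helper49_REV.FX3
import Pool.Agent.Helper6_REV.NE3
import Pool.Agent.Helper10_REV.FR3
import Pool.Agent.Helper30_REV.FN3
import Pool.Agent.Helper98_REV.PIN
import Pool.Agent.Helper12_REV.PUB
import Pool.Agent.Helper59_REV.PFO
import Pool.Agent.Helper59_REV.PEQ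
import Pool.Agent.Helper88_REV.PST
import Pool.Agent.Helper86_REV.PUP
import Pool.Agent.Helper24_REV.PDJ
import Pool.Agent.Helper28_REV.PDN
import Pool.Agent.Helper19_REV.PDL
import Pool.Agent.Helper47_REV.PWM
import Pool.Agent.Helper23_REV.PZR
import Pool.Agent.Helper34_REV.PMB
import Pool.Agent.Helper59_REV.HKE
import Pool.Agent.Helper19_REV.HRB
import Pool.Agent.Helper81_REV.HRA
import Pool.Agent.Helper19_REV.HSM
import Pool.Agent.Helper50_REV.HST
import Pool.Agent.Helper36_REV.HLX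

set_option autoImplicit false

/-!
# Squad REV: assembly in dimension `3`, `i = 2`, without hypotheses
-/

open MeasureTheory Module Set Filter
open scoped RealInnerProductSpace Pointwise Topology ENNReal

namespace Pool.Agent.REV.Asm3

open Pool.Agent.Helper55_PB Pool.Agent.Helper28_PB Pool.Agent.BPH Pool.Agent.REV Pool.Agent.REV.Asm

theorem bZqq : Zqq3Stmt := H52.zqq3 aMob H66.zsm bLwu

/-! ### Part P3 -/

theorem bPin : PinStmt := H98.pin
theorem bPfo : PfoStmt := H59.pfo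
theorem bPeq : PeqStmt := H59.peq bPfo
theorem bPup : PupStmt := H86.pup bPin
theorem bPdl : PdlStmt := H19.pdl (H28.pdn H24.pdj bPin) bPin
theorem bPwm : PwmStmt := H47.pwm bPin
theorem bPzr : PzrStmt := H23.pzr bPin bPup bPdl bPwm
theorem bHlx : HlxStmt :=
  H36.hlx (H50.hst (H19.hrb H59.hke) (H81.hra H36.yd3All) H19.hsm)
theorem bPmb : PmbStmt := H34.pmb bPin H12.pub bPfo bPeq H88.pst bPzr bHlx

theorem bLip : Lip3Stmt := by
  intro C f hf hC
  obtain ⟨K, hK, h⟩ := bHlx C f hf hC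
  refine ⟨K, hK, fun p q hp hpq hq => ?_⟩
  have h1 := h p ⟨hp, hpq.trans hq⟩ q ⟨hp.trans hpq, hq⟩
  have h2 : |p ^ 2 - q ^ 2| = q ^ 2 - p ^ 2 := by
    rw [abs_sub_comm, abs_of_nonneg]
    nlinarith
  rw [h2] at h1
  exact h1

theorem bMon : Mon3Stmt := bPmb

/-! ### Part U3 -/

theorem bKi : Ki3Stmt := H21.ki3
theorem bKn : Kn3Stmt := H65.kn3 bKi
theorem bKt : Kt3Stmt := H70.kt3 bKi
theorem bJe : Je3Stmt := H66.je3
theorem bYr : Yr3Stmt := H63.yr3 H36.yd3All H27.rc3 H63.ydrAll H63.rbcAll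
theorem bRt : Rt3Stmt := H89.rt3
theorem bRp : Rp3Stmt := H76.rp3 bKi
theorem bYm : Ym3Stmt := H29.ym3 bYr bRp
theorem bEl : El3Stmt := H12.el3
theorem bSa : Sa3Stmt := H35.sa3 bKt bJe bEl
theorem bSd : Sd3Stmt := H63.sd3 bSa bYm bRt bRp H65.mra3All
theorem bSm : Sm3Stmt := H11.sm3 bKn bJe bRp
theorem bIm : Im3Stmt := H43.im3 bYm bRt bRp H62.wl3 H65.mra3All
theorem bFc : Fc3Stmt := H16.fc3 H65.sta3All bSd bSm bIm
theorem bFx : Fx3Stmt := H49.fx3 bYr bRt
theorem bNe : Ne3Stmt := H6.ne3 bRt bRp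
theorem bFr : Fr3Stmt := H10.fr3 bYr bRt bRp
theorem bFn : Fn3Stmt := H30.fn3 bNe bFr H65.stb3All
theorem bUf : Uf3Stmt := H63.uf3 bLip bMon bFx bFn bFc

variable {E : Type} [NormedAddCommGroup E] [InnerProductSpace ℝ E] [FiniteDimensional ℝ E]
  [MeasurableSpace E] [BorelSpace E]

/-- **Theorem.** For `n ≥ 3` a body of revolution which is homothetic to its projection body is a ball
or a cylinder with one explicit ratio. -/
theorem rev_top (h3 : 3 ≤ finrank ℝ E) {K L : Set E}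
    (hK : IsConvexBody K) (hL : IsProjectionBodyOfOrder (finrank ℝ E - 1) K L)
    (hKL : Homothetic K L) (hrev : H51.IsRevolution K) :
    (∃ (x : E) (r : ℝ), 0 < r ∧ K = Metric.closedBall x r) ∨
      ∃ (x e : E) (R : ℝ), ‖e‖ = 1 ∧ 0 < R ∧ K = (fun y => x + y) ''
        cyl e (R * Real.sqrt (ballVol (finrank ℝ E - 1) / (2 * ballVol (finrank ℝ E - 2)))) R := by
  rcases Nat.lt_or_ge 3 (finrank ℝ E) with h | h
  · exact Asm.rev_top h hK hL hKL hrev
  · exact top3_of_last bZqq bUf (le_antisymm h h3) hK hL hKL hrev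

end Pool.Agent.REV.Asm3
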