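import Pool.Agent.REV.StmtsG
import Pool.Agent.BPH.Fob
import Pool.Agent.BPH.Kit
import Pool.Agent.BPH.PpmB
import Pool.Agent.BPH.Bkk
import Pool.Agent.BPH.Uni
import Pool.Agent.BPH.Sph

/-!
# Squad REV, part G: auxiliary facts on isometries of a subspace
-/

set_option autoImplicit false

open MeasureTheory Module Set Filter
open scoped RealInnerProductSpace Pointwise Topology ENNReal

namespace Pool.Agent.REV.H13

open Pool.Agent.BPH

section

variable {E : Type} [NormedAddCommGroup E] [InnerProductSpace ℝ E] [FiniteDimensional ℝ E]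

theorem pu_inner (U : Submodule ℝ E) (u : U) (x : E) :
    ⟪(u : E), x⟫ = ⟪u, U.orthogonalProjectionOnto x⟫ := by
  have h1 : ⟪(u : E), U.starProjection x⟫ = ⟪U.starProjection (u : E), x⟫ :=
    (Submodule.inner_starProjection_left_eq_right U (u : E) x).symm
  have h2 : U.starProjection (u : E) = u := Submodule.starProjection_eq_self_iff.2 u.2
  rw [h2] at h1
  exact h1.symm

/-- the extension of an isometry of a subspace by the identity on the complement -/
theorem ext_iso (U : Submodule ℝ E) (h : U ≃ₗᵢ[ℝ] U) :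
    ∃ H : E ≃ₗᵢ[ℝ] E, ∀ x, H x = (h (U.orthogonalProjectionOnto x) : E) +
      (x - U.starProjection x) := by
  let L : E →ₗ[ℝ] E :=
    { toFun := fun x => (h (U.orthogonalProjectionOnto x) : E) + (x - U.starProjection x)
      map_add' := fun x y => by
        simp only [map_add, Submodule.coe_add]
        abel
      map_smul' := fun c x => by
        simp only [map_smul, Submodule.coe_smul, RingHom.id_apply, smul_add, smul_sub] }
  have hL : ∀ x, ‖L x‖ = ‖x‖ := by
    intro x
    have h1 : ⟪(h (U.orthogonalProjectionOnto x) : E), x - U.starProjection x⟫ = 0 := by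
      have := Submodule.starProjection_inner_eq_zero (K := U) x
        (h (U.orthogonalProjectionOnto x) : E) (h (U.orthogonalProjectionOnto x)).2
      rw [real_inner_comm]
      exact this
    have h2 : ‖L x‖ ^ 2 = ‖(h (U.orthogonalProjectionOnto x) : E)‖ ^ 2 +
        ‖x - U.starProjection x‖ ^ 2 := by
      have := norm_add_sq_real (h (U.orthogonalProjectionOnto x) : E) (x - U.starProjection x)
      rw [h1] at this
      rw [show L x = (h (U.orthogonalProjectionOnto x) : E) + (x - U.starProjection x) from rfl,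
        this]
      ring
    have h3 : ‖x‖ ^ 2 = ‖U.starProjection x‖ ^ 2 + ‖x - U.starProjection x‖ ^ 2 := by
      have h4 : ⟪U.starProjection x, x - U.starProjection x⟫ = 0 := by
        have := Submodule.starProjection_inner_eq_zero (K := U) x
          (U.starProjection x) (Submodule.starProjection_apply_mem U x)
        rw [real_inner_comm]
        exact this
      have := norm_add_sq_real (U.starProjection x) (x - U.starProjection x)
      rw [h4, add_sub_cancel] at this
      rw [this]
      ring
    have h5 : ‖(h (U.orthogonalProjectionOnto x) : E)‖ = ‖U.starProjection x‖ := by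
      have := h.norm_map (U.orthogonalProjectionOnto x)
      exact this
    rw [h5, ← h3] at h2
    exact (sq_eq_sq₀ (norm_nonneg _) (norm_nonneg _)).1 h2
  refine ⟨LinearIsometry.toLinearIsometryEquiv ⟨L, hL⟩ rfl, fun x => rfl⟩

theorem ext_proj (U : Submodule ℝ E) (h : U ≃ₗᵢ[ℝ] U) (H : E ≃ₗᵢ[ℝ] E)
    (hH : ∀ x, H x = (h (U.orthogonalProjectionOnto x) : E) + (x - U.starProjection x)) (x : E) :
    U.orthogonalProjectionOnto (H x) = h (U.orthogonalProjectionOnto x) := by
  rw [hH, map_add, Submodule.orthogonalProjectionOnto_mem_subspace_eq_self,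
    Submodule.orthogonalProjectionOnto_apply_of_mem_orthogonal
      (U.sub_starProjection_mem_orthogonal x), add_zero]

theorem ext_star (U : Submodule ℝ E) (h : U ≃ₗᵢ[ℝ] U) (H : E ≃ₗᵢ[ℝ] E)
    (hH : ∀ x, H x = (h (U.orthogonalProjectionOnto x) : E) + (x - U.starProjection x)) (x : E) :
    U.starProjection (H x) = (h (U.orthogonalProjectionOnto x) : E) := by
  have := ext_proj U h H hH x
  exact congrArg (Subtype.val) this

theorem ext_coe (U : Submodule ℝ E) (h : U ≃ₗᵢ[ℝ] U) (H : E ≃ₗᵢ[ℝ] E)
    (hH : ∀ x, H x = (h (U.orthogonalProjectionOnto x) : E) + (x - U.starProjection x)) (u : U) :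
    H (u : E) = (h u : E) := by
  rw [hH, Submodule.orthogonalProjectionOnto_mem_subspace_eq_self,
    Submodule.starProjection_eq_self_iff.2 u.2, sub_self, add_zero]

theorem po_iso (T : E ≃ₗᵢ[ℝ] E) (a x : E) : po (T a) (T x) = T (po a x) := by
  rw [po_formula, po_formula, map_sub, map_smul, T.inner_map_map, T.norm_map]

omit [FiniteDimensional ℝ E] in
theorem nrm_le (x : E) : ‖nrm x‖ ≤ 1 := by
  unfold nrm
  rw [norm_smul, norm_inv, norm_norm]
  by_cases h : ‖x‖ = 0
  · rw [h]; simp
  · rw [inv_mul_cancel₀ h]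

/-- the projection to `U ⊓ a^⊥` -/
theorem proj_inf (U : Submodule ℝ E) (a x : E) :
    (U ⊓ (ℝ ∙ a)ᗮ).starProjection x = po (U.starProjection a) (U.starProjection x) := by
  set p := po (U.starProjection a) (U.starProjection x) with hp
  have hpU : p ∈ U := by
    rw [hp, po_formula]
    exact Submodule.sub_mem _ (Submodule.starProjection_apply_mem U x)
      (Submodule.smul_mem _ _ (Submodule.starProjection_apply_mem U a))
  have hself : ∀ w ∈ U, ⟪U.starProjection a, w⟫ = ⟪a, w⟫ := by
    intro w hw
    rw [Submodule.inner_starProjection_left_eq_right, Submodule.starProjection_eq_self_iff.2 hw]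
  have hpa : ⟪a, p⟫ = 0 := by
    rw [← hself p hpU]
    exact po_orth _ _
  refine Submodule.eq_starProjection_of_mem_of_inner_eq_zero
    ⟨hpU, Submodule.mem_orthogonal_singleton_iff_inner_right.2 hpa⟩ ?_
  intro w hw
  have hwU : w ∈ U := hw.1
  have hwa : ⟪a, w⟫ = 0 := Submodule.mem_orthogonal_singleton_iff_inner_right.1 hw.2
  have h1 : ⟪x - U.starProjection x, w⟫ = 0 := Submodule.starProjection_inner_eq_zero x w hwU
  have h2 : x - p = (x - U.starProjection x) +
      (⟪U.starProjection a, U.starProjection x⟫ / ‖U.starProjection a‖ ^ 2) •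
        U.starProjection a := by
    rw [hp, po_formula]
    abel
  rw [h2, inner_add_left, h1, inner_smul_left, hself w hwU, hwa]
  simp

end

section

variable {E : Type} [NormedAddCommGroup E] [InnerProductSpace ℝ E] [FiniteDimensional ℝ E]
  [MeasurableSpace E] [BorelSpace E]

/-- the averaged integrand does not depend on the orthonormal pair -/
theorem key (pai : PaiStmt) (U : Submodule ℝ E) (lam : Measure (U →L[ℝ] U)) (hl : IsHaarO lam)
    (y1 y2 : U) (h1 : ‖y1‖ = 1) (h2 : ‖y2‖ = 1) (h12 : ⟪y1, y2⟫ = 0) (Θ : E × E → ℝ)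
    (hΘ : BM Θ) (a : E) (ha : U.orthogonalProjectionOnto a ≠ 0) (u : U) (hu : ‖u‖ = 1)
    (hau : ⟪U.orthogonalProjectionOnto a, u⟫ = 0) :
    ∫ h, Θ (((h (U.orthogonalProjectionOnto a) : U) : E) + (a - U.starProjection a),
      ((h u : U) : E)) ∂lam =
      Gam U lam y1 y2 Θ (‖U.starProjection a‖, a - U.starProjection a) := by
  set p := U.orthogonalProjectionOnto a with hp
  have hnp : ‖p‖ = ‖U.starProjection a‖ := rfl
  have hη : ‖nrm p‖ = 1 := norm_nrm ha
  have hpn : p = ‖p‖ • nrm p := by
    unfold nrm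
    rw [smul_smul, mul_inv_cancel₀ (norm_ne_zero_iff.2 ha), one_smul]
  have hηu : ⟪nrm p, u⟫ = 0 := by
    unfold nrm
    rw [inner_smul_left, hau]
    simp
  obtain ⟨hΘm, C, hC⟩ := hΘ
  let Φ : U × U → ℝ := fun q => Θ (‖p‖ • (q.1 : E) + (a - U.starProjection a), (q.2 : E))
  have hΦ : BM Φ := by
    refine ⟨hΘm.comp ?_, C, fun q => hC _⟩
    fun_prop
  have e := pai lam hl (nrm p) u y1 y2 hη hu hηu h1 h2 h12 Φ hΦ
  have e1 : ∀ h : U →L[ℝ] U, Θ (((h p : U) : E) + (a - U.starProjection a), ((h u : U) : E)) =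
      Φ (h (nrm p), h u) := by
    intro h
    have : ((h p : U) : E) = ‖p‖ • ((h (nrm p) : U) : E) := by
      conv_lhs => rw [hpn]
      rw [map_smul]
      rfl
    simp only [Φ]
    rw [this]
  simp_rw [e1]
  rw [e]
  rfl

end

end Pool.Agent.REV.H13
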