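import Pool.Agent.Helper13_REV.IsoAux

/-!
# Squad REV, row LLL: the left side of the exchange formula
-/

set_option autoImplicit false

open MeasureTheory Module Set Filter
open scoped RealInnerProductSpace Pointwise Topology ENNReal

namespace Pool.Agent.REV.H13

open Pool.Agent.BPH

theorem lll (pai : PaiStmt) : LllStmt := by
  intro E _ _ _ _ _ U lam hl y1 y2 h1 h2 h12 Θ hΘ
  have hBM := hΘ
  obtain ⟨hΘm, C, hC⟩ := hΘ
  have sp := sph_facts
  have uni' := uni sp
  have := sp.prob (E := E)
  have := hl.prob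
  have hC0 : 0 ≤ C := (abs_nonneg _).trans (hC 0)
  -- the inner integrand
  let G : E × E → ℝ := fun q => ‖U.starProjection (nrm (po q.1 q.2))‖ *
    Θ (nrm (po q.1 q.2), q.1)
  have hpm : Measurable (fun q : E × E => nrm (po q.1 q.2)) := measurable_nrm.comp measurable_po
  have hGm : Measurable G := by
    refine ((U.starProjection).continuous.measurable.comp hpm).norm.mul (hΘm.comp ?_)
    exact hpm.prodMk measurable_fst
  have hnp : ∀ x : E, ‖U.starProjection (nrm x)‖ ≤ 1 := fun x =>
    (Submodule.norm_starProjection_apply_le U _).trans (nrm_le x)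
  have hGb : ∀ q, |G q| ≤ C := by
    intro q
    show |‖U.starProjection (nrm (po q.1 q.2))‖ * Θ (nrm (po q.1 q.2), q.1)| ≤ C
    rw [abs_mul, abs_norm]
    calc _ ≤ 1 * C := mul_le_mul (hnp _) (hC _) (abs_nonneg _) zero_le_one
      _ = C := one_mul C
  let F : E → ℝ := fun u => ∫ x, G (u, x) ∂sph E
  have hFm : Measurable F :=
    (StronglyMeasurable.integral_prod_right' (ν := sph E) hGm.stronglyMeasurable).measurable
  have hFb : ∀ u, |F u| ≤ C := by
    intro u
    have h3 : ‖∫ x, G (u, x) ∂sph E‖ ≤ C * (sph E).real univ :=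
      norm_integral_le_of_norm_le_const (Eventually.of_forall fun x => by
        rw [Real.norm_eq_abs]; exact hGb _)
    rw [probReal_univ, mul_one, Real.norm_eq_abs] at h3
    exact h3
  have hFT : Tst F := ⟨hFm, C, hFb⟩
  have hA : mS U (fun u => mS (ℝ ∙ u)ᗮ (fun a => ‖U.starProjection a‖ * Θ (a, u))) = mS U F := rfl
  rw [hA, ← uni'.sub U lam hl y2 h2 F hFT]
  -- the integrand after the rotation
  let ax : E → E := fun x => nrm (po (y2 : E) x)
  have haxm : Measurable ax := measurable_nrm.comp (measurable_po' measurable_const measurable_id)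
  let K : (U →L[ℝ] U) × E → ℝ := fun q => ‖U.starProjection (ax q.2)‖ *
    Θ (((q.1 (U.orthogonalProjectionOnto (ax q.2)) : U) : E) +
      (ax q.2 - U.starProjection (ax q.2)), ((q.1 y2 : U) : E))
  have hKm : Measurable K := by
    have ha2 : Measurable fun q : (U →L[ℝ] U) × E => ax q.2 := haxm.comp measurable_snd
    have hP : Measurable fun q : (U →L[ℝ] U) × E => U.starProjection (ax q.2) :=
      (U.starProjection).continuous.measurable.comp ha2
    have hPo : Measurable fun q : (U →L[ℝ] U) × E => U.orthogonalProjectionOnto (ax q.2) :=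
      (U.orthogonalProjectionOnto).continuous.measurable.comp ha2
    have hev : Measurable fun q : (U →L[ℝ] U) × E =>
        ((q.1 (U.orthogonalProjectionOnto (ax q.2)) : U) : E) :=
      measurable_subtype_coe.comp (UniRow.eval_meas.comp (measurable_fst.prodMk hPo))
    have hev2 : Measurable fun q : (U →L[ℝ] U) × E => ((q.1 y2 : U) : E) :=
      measurable_subtype_coe.comp (UniRow.eval_meas.comp (measurable_fst.prodMk measurable_const))
    exact hP.norm.mul (hΘm.comp ((hev.add (ha2.sub hP)).prodMk hev2))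
  have hKb : ∀ q, |K q| ≤ C := by
    intro q
    show |‖U.starProjection (ax q.2)‖ * _| ≤ C
    rw [abs_mul, abs_norm]
    calc _ ≤ 1 * C := mul_le_mul (hnp _) (hC _) (abs_nonneg _) zero_le_one
      _ = C := one_mul C
  have hKi : Integrable K (lam.prod (sph E)) := integrable_bdd hKm (Eventually.of_forall hKb)
  -- step 1: for almost every `h`
  have hstep : ∀ᵐ h ∂lam, F ((h y2 : U) : E) = ∫ x, K (h, x) ∂sph E := by
    filter_upwards [hl.iso] with h hh
    obtain ⟨T, rfl⟩ := hh
    obtain ⟨H, hH⟩ := ext_iso U T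
    have hy : ((opT T y2 : U) : E) = H (y2 : E) := (ext_coe U T H hH y2).symm
    rw [hy]
    show ∫ x, G (H (y2 : E), x) ∂sph E = _
    rw [← Fob18.integral_iso sp H (fun x => G (H (y2 : E), x))]
    refine integral_congr_ae (Eventually.of_forall fun x => ?_)
    show ‖U.starProjection (nrm (po (H (y2 : E)) (H x)))‖ *
      Θ (nrm (po (H (y2 : E)) (H x)), H (y2 : E)) = K (opT T, x)
    rw [po_iso, Fob18.nrm_iso, ext_star U T H hH]
    show ‖((T (U.orthogonalProjectionOnto (ax x)) : U) : E)‖ * Θ (H (ax x), H (y2 : E)) =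
      ‖U.starProjection (ax x)‖ *
        Θ (((T (U.orthogonalProjectionOnto (ax x)) : U) : E) +
          (ax x - U.starProjection (ax x)), ((T y2 : U) : E))
    rw [hH (ax x), ext_coe U T H hH y2]
    congr 1
    exact T.norm_map (U.orthogonalProjectionOnto (ax x))
  rw [integral_congr_ae hstep]
  have hswap : ∫ h, ∫ x, K (h, x) ∂sph E ∂lam = ∫ x, ∫ h, K (h, x) ∂lam ∂sph E :=
    integral_integral_swap (f := fun h x => K (h, x)) hKi
  rw [hswap]
  refine integral_congr_ae (Eventually.of_forall fun x => ?_)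
  show ∫ h, K (h, x) ∂lam = ‖U.starProjection (ax x)‖ *
    Gam U lam y1 y2 Θ (‖U.starProjection (ax x)‖, ax x - U.starProjection (ax x))
  by_cases h0 : U.orthogonalProjectionOnto (ax x) = 0
  · have h3 : U.starProjection (ax x) = 0 := congrArg Subtype.val h0
    have h4 : ∀ h, K (h, x) = 0 := by
      intro h
      show ‖U.starProjection (ax x)‖ * _ = 0
      rw [h3, norm_zero, zero_mul]
    simp_rw [h4]
    rw [h3, norm_zero, zero_mul, integral_zero]
  · have h3 : ⟪U.orthogonalProjectionOnto (ax x), y2⟫ = 0 := by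
      rw [real_inner_comm, ← pu_inner U y2 (ax x)]
      show ⟪(y2 : E), nrm (po (y2 : E) x)⟫ = 0
      unfold nrm
      rw [inner_smul_right, po_orth, mul_zero]
    rw [← key pai U lam hl y1 y2 h1 h2 h12 Θ hBM (ax x) h0 y2 h2 h3]
    show ∫ h, ‖U.starProjection (ax x)‖ * _ ∂lam = _
    rw [integral_const_mul]

end Pool.Agent.REV.H13
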