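import Pool.Agent.Helper13_REV.IsoAux

/-!
# Squad REV, row LLR: the right side of the exchange formula
-/

set_option autoImplicit false

open MeasureTheory Module Set Filter
open scoped RealInnerProductSpace Pointwise Topology ENNReal

namespace Pool.Agent.REV.H13

open Pool.Agent.BPH

theorem inf_ne_bot {E : Type} [NormedAddCommGroup E] [InnerProductSpace ℝ E]
    [FiniteDimensional ℝ E] (U : Submodule ℝ E) (y1 y2 : U) (h1 : ‖y1‖ = 1) (h2 : ‖y2‖ = 1)
    (h12 : ⟪y1, y2⟫ = 0) (a : E) : U ⊓ (ℝ ∙ a)ᗮ ≠ ⊥ := by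
  intro hb
  have hmem : ∀ z : U, ⟪a, (z : E)⟫ = 0 → z = 0 := by
    intro z hz
    have h3 : (z : E) ∈ U ⊓ (ℝ ∙ a)ᗮ :=
      ⟨z.2, Submodule.mem_orthogonal_singleton_iff_inner_right.2 hz⟩
    rw [hb, Submodule.mem_bot] at h3
    exact Subtype.ext h3
  have hz := hmem (⟪a, (y2 : E)⟫ • y1 - ⟪a, (y1 : E)⟫ • y2) (by
    rw [Submodule.coe_sub, Submodule.coe_smul, Submodule.coe_smul, inner_sub_right,
      inner_smul_right, inner_smul_right]
    ring)
  have h3 : ⟪y1, ⟪a, (y2 : E)⟫ • y1 - ⟪a, (y1 : E)⟫ • y2⟫ = ⟪a, (y2 : E)⟫ := by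
    rw [inner_sub_right, inner_smul_right, inner_smul_right, h12, real_inner_self_eq_norm_sq, h1]
    ring
  rw [hz, inner_zero_right] at h3
  have h4 := hmem y2 h3.symm
  rw [h4, norm_zero] at h2
  exact zero_ne_one h2

theorem llr (pai : PaiStmt) : LlrStmt := by
  intro E _ _ _ _ _ U lam hl y1 y2 h1 h2 h12 Θ hΘ
  have hBM := hΘ
  obtain ⟨hΘm, C, hC⟩ := hΘ
  have sp := sph_facts
  have := sp.prob (E := E)
  have := hl.prob
  -- the unit vector of `U ⊓ a^⊥` as an element of `U`
  let ux : E × E → U := fun q =>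
    nrm (po (U.orthogonalProjectionOnto q.1) (U.orthogonalProjectionOnto q.2))
  have hPo : Measurable (fun x : E => U.orthogonalProjectionOnto x) :=
    (U.orthogonalProjectionOnto).continuous.measurable
  have huxm : Measurable ux :=
    measurable_nrm.comp (measurable_po' (hPo.comp measurable_fst) (hPo.comp measurable_snd))
  have hpo : ∀ a x : U, ((po a x : U) : E) = po (a : E) (x : E) := by
    intro a x
    rw [po_formula, po_formula]
    rfl
  have hnrm : ∀ a : U, ((nrm a : U) : E) = nrm (a : E) := fun a => rfl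
  have huxc : ∀ a x : E, ((ux (a, x) : U) : E) = nrm ((U ⊓ (ℝ ∙ a)ᗮ).starProjection x) := by
    intro a x
    rw [proj_inf]
    show ((nrm (po (U.orthogonalProjectionOnto a) (U.orthogonalProjectionOnto x)) : U) : E) = _
    rw [hnrm, hpo]
    rfl
  have hA : ∀ a : E, mS (U ⊓ (ℝ ∙ a)ᗮ) (fun u => Θ (a, u)) =
      ∫ x, Θ (a, ((ux (a, x) : U) : E)) ∂sph E := by
    intro a
    unfold mS
    refine integral_congr_ae (Eventually.of_forall fun x => ?_)
    show Θ (a, nrm ((U ⊓ (ℝ ∙ a)ᗮ).starProjection x)) = Θ (a, ((ux (a, x) : U) : E))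
    rw [huxc]
  simp_rw [hA]
  -- the kernel
  let K : (U →L[ℝ] U) × (E × E) → ℝ := fun q =>
    Θ (((q.1 (U.orthogonalProjectionOnto q.2.1) : U) : E) +
      (q.2.1 - U.starProjection q.2.1), ((q.1 (ux q.2) : U) : E))
  have hKm : Measurable K := by
    have ha2 : Measurable fun q : (U →L[ℝ] U) × (E × E) => q.2.1 :=
      measurable_fst.comp measurable_snd
    have hP : Measurable fun q : (U →L[ℝ] U) × (E × E) => U.starProjection q.2.1 :=
      (U.starProjection).continuous.measurable.comp ha2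
    have hev : Measurable fun q : (U →L[ℝ] U) × (E × E) =>
        ((q.1 (U.orthogonalProjectionOnto q.2.1) : U) : E) :=
      measurable_subtype_coe.comp (UniRow.eval_meas.comp (measurable_fst.prodMk (hPo.comp ha2)))
    have hev2 : Measurable fun q : (U →L[ℝ] U) × (E × E) => ((q.1 (ux q.2) : U) : E) :=
      measurable_subtype_coe.comp
        (UniRow.eval_meas.comp (measurable_fst.prodMk (huxm.comp measurable_snd)))
    exact hΘm.comp ((hev.add (ha2.sub hP)).prodMk hev2)
  have hKi : Integrable K (lam.prod ((sph E).prod (sph E))) :=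
    integrable_bdd hKm (Eventually.of_forall fun q => hC _)
  have hKh : ∀ h : U →L[ℝ] U, Integrable (fun p => K (h, p)) ((sph E).prod (sph E)) := fun h =>
    integrable_bdd (hKm.comp (measurable_const.prodMk measurable_id))
      (Eventually.of_forall fun q => hC _)
  -- almost every `h`
  set I := ∫ a, ∫ x, Θ (a, ((ux (a, x) : U) : E)) ∂sph E ∂sph E with hI
  have hstep : ∀ᵐ h ∂lam, ∫ p, K (h, p) ∂((sph E).prod (sph E)) = I := by
    filter_upwards [hl.iso] with h hh
    obtain ⟨T, rfl⟩ := hh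
    obtain ⟨H, hH⟩ := ext_iso U T
    rw [integral_prod _ (hKh _), hI]
    rw [← Fob18.integral_iso sp H (fun a => ∫ x, Θ (a, ((ux (a, x) : U) : E)) ∂sph E)]
    refine integral_congr_ae (Eventually.of_forall fun a => ?_)
    show ∫ x, K (opT T, (a, x)) ∂sph E = ∫ x, Θ (H a, ((ux (H a, x) : U) : E)) ∂sph E
    rw [← Fob18.integral_iso sp H (fun x => Θ (H a, ((ux (H a, x) : U) : E)))]
    refine integral_congr_ae (Eventually.of_forall fun x => ?_)
    show Θ (((T (U.orthogonalProjectionOnto a) : U) : E) + (a - U.starProjection a),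
      ((T (ux (a, x)) : U) : E)) = Θ (H a, ((ux (H a, H x) : U) : E))
    rw [hH a]
    have h3 : ux (H a, H x) = T (ux (a, x)) := by
      show nrm (po (U.orthogonalProjectionOnto (H a)) (U.orthogonalProjectionOnto (H x))) = _
      rw [ext_proj U T H hH, ext_proj U T H hH, po_iso, Fob18.nrm_iso]
    rw [← hH a, h3, hH a]
  have hav : I = ∫ h, ∫ p, K (h, p) ∂((sph E).prod (sph E)) ∂lam := by
    rw [integral_congr_ae hstep, integral_const, probReal_univ, one_smul]
  have hswap : ∫ h, ∫ p, K (h, p) ∂((sph E).prod (sph E)) ∂lam =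
      ∫ p, ∫ h, K (h, p) ∂lam ∂((sph E).prod (sph E)) :=
    integral_integral_swap (f := fun h p => K (h, p)) hKi
  rw [hav, hswap, integral_prod _ hKi.integral_prod_right]
  -- almost every `a`, `x`
  have hUb : U ≠ ⊥ := by
    intro h
    have h3 : (y1 : E) ∈ (⊥ : Submodule ℝ E) := h ▸ y1.2
    have h4 : y1 = 0 := Subtype.ext ((Submodule.mem_bot ℝ).1 h3)
    rw [h4, norm_zero] at h1
    exact zero_ne_one h1
  refine integral_congr_ae ?_
  filter_upwards [bkk_ae sp hUb] with a ha
  have ha0 : U.orthogonalProjectionOnto a ≠ 0 := fun h => ha (congrArg Subtype.val h)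
  have hx : ∀ᵐ x ∂sph E, ∫ h, K (h, (a, x)) ∂lam =
      Gam U lam y1 y2 Θ (‖U.starProjection a‖, a - U.starProjection a) := by
    filter_upwards [bkk_ae sp (inf_ne_bot U y1 y2 h1 h2 h12 a)] with x hx
    have hu1 : ‖ux (a, x)‖ = 1 := by
      show ‖((ux (a, x) : U) : E)‖ = 1
      rw [huxc]
      exact norm_nrm hx
    have hau : ⟪U.orthogonalProjectionOnto a, ux (a, x)⟫ = 0 := by
      show ⟪U.orthogonalProjectionOnto a,
        nrm (po (U.orthogonalProjectionOnto a) (U.orthogonalProjectionOnto x))⟫ = 0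
      unfold nrm
      rw [inner_smul_right, po_orth, mul_zero]
    exact key pai U lam hl y1 y2 h1 h2 h12 Θ hBM a ha0 (ux (a, x)) hu1 hau
  show ∫ x, ∫ h, K (h, (a, x)) ∂lam ∂sph E = _
  rw [integral_congr_ae hx, integral_const, probReal_univ, one_smul]

end Pool.Agent.REV.H13
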