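import Pool.Agent.REV.StmtsG3

/-!
# Squad REV, row LWZ: the law of the height, interface form
-/

set_option autoImplicit false

open MeasureTheory Module Set Filter
open scoped RealInnerProductSpace Pointwise Topology ENNReal

namespace Pool.Agent.REV.H13

open Pool.Agent.BPH

theorem even_int {g : ℝ → ℝ} (hg : ∀ x, g (-x) = g x)
    (hi : IntervalIntegrable g volume (-1) 1) :
    ∫ x in (-1 : ℝ)..1, g x = 2 * ∫ x in (0 : ℝ)..1, g x := by
  have h1 : IntervalIntegrable g volume (-1) 0 := hi.mono_set (by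
    rw [uIcc_of_le (by norm_num : (-1 : ℝ) ≤ 0), uIcc_of_le (by norm_num : (-1 : ℝ) ≤ 1)]
    exact Icc_subset_Icc le_rfl (by norm_num))
  have h2 : IntervalIntegrable g volume 0 1 := hi.mono_set (by
    rw [uIcc_of_le (by norm_num : (0 : ℝ) ≤ 1), uIcc_of_le (by norm_num : (-1 : ℝ) ≤ 1)]
    exact Icc_subset_Icc (by norm_num) le_rfl)
  rw [← intervalIntegral.integral_add_adjacent_intervals h1 h2]
  have h3 : ∫ x in (-1 : ℝ)..0, g x = ∫ x in (0 : ℝ)..1, g x := by
    have h4 := intervalIntegral.integral_comp_neg (a := (0 : ℝ)) (b := 1) g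
    rw [neg_zero] at h4
    rw [← h4]
    exact intervalIntegral.integral_congr fun x _ => hg x
  rw [h3]
  ring

theorem lwz (lwh : LwhStmt) : LwzStmt := by
  intro E _ _ _ _ _ hn
  set a : ℝ := ((finrank ℝ E : ℝ) - 3) / 2 with ha
  have ha0 : 0 ≤ a := by
    have : (3 : ℝ) ≤ finrank ℝ E := by exact_mod_cast hn
    rw [ha]
    linarith
  set w : ℝ → ℝ := fun x => (1 - x ^ 2) ^ a with hw
  have hwc : Continuous w := by
    refine Continuous.rpow_const (by fun_prop) fun x => Or.inr ha0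
  have hpos : 0 < ∫ x in (0 : ℝ)..1, w x := by
    refine intervalIntegral.intervalIntegral_pos_of_pos_on (hwc.intervalIntegrable _ _) ?_
      one_pos
    intro x hx
    refine Real.rpow_pos_of_pos ?_ _
    nlinarith [hx.1, hx.2]
  refine ⟨(∫ x in (0 : ℝ)..1, w x)⁻¹, inv_pos.2 hpos, ?_⟩
  intro e he f hfm hfb
  obtain ⟨C, hC⟩ := hfb
  set ψ : ℝ → ℝ := fun s => f (min |s| 1) with hψ
  have hψm : Measurable ψ := by
    have h1 : Measurable (fun s : ℝ => zon e f (s • e)) :=
      hfm.comp (measurable_id.smul_const e)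
    have h2 : (fun s : ℝ => zon e f (s • e)) = ψ := by
      funext s
      show f (min |⟪e, s • e⟫| 1) = f (min |s| 1)
      rw [inner_smul_right, real_inner_self_eq_norm_sq, he]
      norm_num
    rwa [h2] at h1
  have hψb : ∀ s, |ψ s| ≤ C := fun s =>
    hC _ ⟨le_min (abs_nonneg _) zero_le_one, min_le_right _ _⟩
  have hL := lwh E hn e he ψ ⟨hψm, C, hψb⟩
  have hwi : IntervalIntegrable w volume (-1) 1 := hwc.intervalIntegrable _ _
  have hwψ : IntervalIntegrable (fun x => w x * ψ x) volume (-1) 1 := by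
    rw [intervalIntegrable_iff]
    have h1 : IntegrableOn w (Set.uIoc (-1 : ℝ) 1) volume := intervalIntegrable_iff.1 hwi
    refine Integrable.mul_bdd (c := C) h1 hψm.aestronglyMeasurable.restrict
      (Eventually.of_forall fun x => ?_)
    rw [Real.norm_eq_abs]
    exact hψb x
  have e1 : ∫ x in (-1 : ℝ)..1, w x = 2 * ∫ x in (0 : ℝ)..1, w x :=
    even_int (fun x => by simp [hw]) hwi
  have e2 : ∫ x in (-1 : ℝ)..1, w x * ψ x = 2 * ∫ x in (0 : ℝ)..1, w x * ψ x :=
    even_int (fun x => by simp [hw, hψ]) hwψ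
  have e3 : ∫ x in (0 : ℝ)..1, w x * ψ x = ∫ x in (0 : ℝ)..1, w x * f x := by
    refine intervalIntegral.integral_congr fun x hx => ?_
    rw [uIcc_of_le zero_le_one] at hx
    show w x * f (min |x| 1) = w x * f x
    rw [abs_of_nonneg hx.1, min_eq_left hx.2]
  have hL' : (∫ x in (-1 : ℝ)..1, w x) * ∫ x, zon e f x ∂sph E =
      ∫ x in (-1 : ℝ)..1, w x * ψ x := hL
  rw [e1, e2, e3] at hL'
  show ∫ x, zon e f x ∂sph E = (∫ x in (0 : ℝ)..1, w x)⁻¹ * ∫ x in (0 : ℝ)..1, w x * f x
  field_simp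
  linarith

end Pool.Agent.REV.H13
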