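import Pool.Agent.REV.StmtsG2
import Pool.Agent.Helper13_REV.IsoAux
import Pool.Agent.BPH.Gwa
import Pool.Agent.BPH.Gwb

/-!
# Squad REV, row MOB: all moments
-/

set_option autoImplicit false

open MeasureTheory Module Set Filter
open scoped RealInnerProductSpace Pointwise Topology ENNReal

namespace Pool.Agent.REV.H13

open Pool.Agent.BPH

section

variable {E : Type} [NormedAddCommGroup E] [InnerProductSpace ℝ E] [FiniteDimensional ℝ E]
  [MeasurableSpace E] [BorelSpace E]

/-- measurable and bounded on families in the unit ball -/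
def Nice (j : ℕ) (Ψ : (Fin j → E) → ℝ) : Prop :=
  Measurable Ψ ∧ ∃ C, ∀ v, (∀ l, ‖v l‖ ≤ 1) → |Ψ v| ≤ C

theorem nice_gw {m j : ℕ} (A : (Fin j → E) → (Fin m → E)) (hA : Continuous A)
    (hA1 : ∀ w, (∀ l, ‖w l‖ ≤ 1) → ∀ l, ‖A w l‖ ≤ 1) : Nice j (fun w => gw (A w) ^ 2) := by
  refine ⟨(((gwb gwa).cont.comp hA).pow 2).measurable, 1, fun v hv => ?_⟩
  have h1 : gw (A v) ≤ 1 := ((gwb gwa).le (A v)).trans
    (Finset.prod_le_one (fun l _ => norm_nonneg _) (fun l _ => hA1 v hv l))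
  have h0 : 0 ≤ gw (A v) := Real.sqrt_nonneg _
  rw [abs_of_nonneg (by positivity)]
  nlinarith

omit [InnerProductSpace ℝ E] [FiniteDimensional ℝ E] [BorelSpace E] in
theorem nice_mul {j : ℕ} {Ψ : (Fin j → E) → ℝ} (h : Nice j Ψ) {f : E → ℝ} (hf : Tst f) :
    Nice j (fun w => Ψ w * ∏ l, f (w l)) := by
  obtain ⟨hm, C, hC⟩ := h
  obtain ⟨Cf, hCf⟩ := hf.bdd
  refine ⟨hm.mul (Finset.measurable_prod _ fun l _ => hf.meas.comp (measurable_pi_apply l)),
    C * Cf ^ j, fun v hv => ?_⟩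
  have h1 : |∏ l, f (v l)| ≤ Cf ^ j := by
    rw [Finset.abs_prod]
    calc ∏ l, |f (v l)| ≤ ∏ _l : Fin j, Cf :=
          Finset.prod_le_prod (fun l _ => abs_nonneg _) (fun l _ => hCf _)
      _ = Cf ^ j := by simp
  rw [abs_mul]
  exact mul_le_mul (hC v hv) h1 (abs_nonneg _) ((abs_nonneg _).trans (hC v hv))

theorem nice_int {j : ℕ} {Ψ : (Fin j → E) → ℝ} (h : Nice j Ψ) (U : Submodule ℝ E) :
    Integrable (fun x : Fin j → E => Ψ (fun l => nrm (U.starProjection (x l)))) (sphP E j) := by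
  have := sph_facts.prob (E := E)
  have : IsProbabilityMeasure (sphP E j) := by
    unfold sphP
    infer_instance
  obtain ⟨hm, C, hC⟩ := h
  refine Integrable.of_bound (C := C) (hm.comp ?_).aestronglyMeasurable
    (Eventually.of_forall fun x => ?_)
  · refine measurable_pi_lambda _ fun l => ?_
    exact (bkk_meas U).comp (measurable_pi_apply l)
  · rw [Real.norm_eq_abs]
    exact hC _ fun l => nrm_le _

theorem lin3 {j : ℕ} {X Y Z : (Fin j → E) → ℝ} (hX : Nice j X) (hY : Nice j Y) (hZ : Nice j Z)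
    {f : E → ℝ} (hf : Tst f) (U : Submodule ℝ E) (α β γ : ℝ) :
    mP U j (fun w => (α * X w - β * Y w + γ * Z w) * ∏ l, f (w l)) =
      α * mP U j (fun w => X w * ∏ l, f (w l)) - β * mP U j (fun w => Y w * ∏ l, f (w l)) +
        γ * mP U j (fun w => Z w * ∏ l, f (w l)) := by
  have iX := nice_int (nice_mul hX hf) U
  have iY := nice_int (nice_mul hY hf) U
  have iZ := nice_int (nice_mul hZ hf) U
  set p : (Fin j → E) → (Fin j → E) := fun x l => nrm (U.starProjection (x l)) with hp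
  have e1 : mP U j (fun w => (α * X w - β * Y w + γ * Z w) * ∏ l, f (w l)) =
      ∫ x, (α * (X (p x) * ∏ l, f (p x l)) - β * (Y (p x) * ∏ l, f (p x l))) +
        γ * (Z (p x) * ∏ l, f (p x l)) ∂sphP E j := by
    refine integral_congr_ae (Eventually.of_forall fun x => ?_)
    show (α * X (p x) - β * Y (p x) + γ * Z (p x)) * ∏ l, f (p x l) = _
    ring
  rw [e1]
  have e2 := integral_add ((iX.const_mul α).sub (iY.const_mul β)) (iZ.const_mul γ)
  have e3 := integral_sub (iX.const_mul α) (iY.const_mul β)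
  refine e2.trans ?_
  rw [integral_const_mul]
  congr 1
  refine e3.trans ?_
  rw [integral_const_mul, integral_const_mul]
  rfl

omit [InnerProductSpace ℝ E] [FiniteDimensional ℝ E] [MeasurableSpace E] [BorelSpace E] in
theorem cns_cont {j m : ℕ} (u : E) {A : (Fin j → E) → (Fin m → E)} (hA : Continuous A) :
    Continuous (fun w => cns u (A w)) := by
  unfold cns
  refine continuous_pi fun l => ?_
  refine Fin.cases ?_ (fun k => ?_) l
  · simp only [Fin.cons_zero]
    exact continuous_const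
  · simp only [Fin.cons_succ]
    exact (continuous_apply k).comp hA

omit [InnerProductSpace ℝ E] [FiniteDimensional ℝ E] [MeasurableSpace E] [BorelSpace E] in
theorem cns_le {m : ℕ} {u : E} (hu : ‖u‖ ≤ 1) {w : Fin m → E} (hw : ∀ l, ‖w l‖ ≤ 1) (l) :
    ‖cns u w l‖ ≤ 1 := by
  unfold cns
  refine Fin.cases ?_ (fun k => ?_) l
  · simpa using hu
  · simpa using hw k

/-- one step -/
theorem stepA (mps : MpsStmt) (moa : MoaStmt) {f : E → ℝ} {u e' : E} {a b : ℝ} (hf : Tst f)
    (hu : ‖u‖ = 1) (he : ‖e'‖ = 1) (hsm : SM f u e' a b) {j m : ℕ}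
    (A : (Fin j → E) → (Fin m → E)) (A' : (Fin (j + 1) → E) → (Fin (m + 1) → E))
    (hA : Continuous A) (hA1 : ∀ w, (∀ l, ‖w l‖ ≤ 1) → ∀ l, ‖A w l‖ ≤ 1)
    (hA' : Continuous A') (hA1' : ∀ w, (∀ l, ‖w l‖ ≤ 1) → ∀ l, ‖A' w l‖ ≤ 1)
    (h : ∀ x w, gw (A' (cns x w)) = gw (cns x (A w))) :
    mP (ℝ ∙ u)ᗮ (j + 1) (fun v => gw (A' v) ^ 2 * ∏ l, f (v l)) =
      b * ((finrank ℝ E : ℝ) - m) * mP (ℝ ∙ u)ᗮ j (fun w => gw (A w) ^ 2 * ∏ l, f (w l)) -
        b * mP (ℝ ∙ u)ᗮ j (fun w => gw (cns u (A w)) ^ 2 * ∏ l, f (w l)) +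
        (a - b) * mP (ℝ ∙ u)ᗮ j (fun w => gw (cns e' (A w)) ^ 2 * ∏ l, f (w l)) := by
  have n1 := nice_gw A hA hA1
  have n2 := nice_gw (fun w => cns u (A w)) (cns_cont u hA)
    (fun w hw => cns_le hu.le (hA1 w hw))
  have n3 := nice_gw (fun w => cns e' (A w)) (cns_cont e' hA)
    (fun w hw => cns_le he.le (hA1 w hw))
  have n0 := nice_mul (nice_gw A' hA' hA1') hf
  rw [← lin3 n1 n2 n3 hf, (mps j).1 (ℝ ∙ u)ᗮ _ n0.1 n0.2]
  congr 1
  funext w
  have e : ∀ x : E, gw (A' (cns x w)) ^ 2 * ∏ l, f ((cns x w : Fin (j + 1) → E) l) =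
      (∏ l, f (w l)) * (gw (cns x (A w)) ^ 2 * f x) := by
    intro x
    rw [h, Fin.prod_univ_succ]
    unfold cns
    simp only [Fin.cons_zero, Fin.cons_succ]
    ring
  simp_rw [e]
  rw [← moa f u e' a b hf hsm m (A w)]
  unfold mS
  rw [← integral_mul_const]
  refine integral_congr_ae (Eventually.of_forall fun x => ?_)
  show (∏ l, f (w l)) * _ = _ * (∏ l, f (w l))
  rw [mul_comm]

/-- the recursion -/
theorem mob_rec {n : ℕ} {a b : ℝ} (hn : 2 ≤ n) (M U N R : ℕ → ℝ) (M0 : M 0 = 1) (U0 : U 0 = 1)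
    (N0 : N 0 = 1) (R0 : R 0 = 1)
    (hM : ∀ j : ℕ, M (j + 1) = b * ((n : ℝ) - j) * M j - b * U j + (a - b) * N j)
    (hU : ∀ j : ℕ, U (j + 1) = b * ((n : ℝ) - (j + 1 : ℕ)) * U j - b * 0 + (a - b) * R j)
    (hN : ∀ j : ℕ, N (j + 1) = b * ((n : ℝ) - (j + 1 : ℕ)) * N j - b * R j + (a - b) * 0)
    (hR : ∀ j : ℕ, R (j + 1) = b * ((n : ℝ) - (j + 1 + 1 : ℕ)) * R j - b * 0 + (a - b) * 0)
    (i : ℕ) :
    M i = ((n - 2).descFactorial i : ℝ) * b ^ i +
      i * ((n - 2).descFactorial (i - 1) : ℝ) * (a * b ^ (i - 1)) := by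
  have hD : ∀ j : ℕ, ((n - 2).descFactorial (j + 1) : ℝ) =
      ((n : ℝ) - 2 - j) * ((n - 2).descFactorial j : ℝ) := by
    intro j
    rw [Nat.descFactorial_succ]
    by_cases hj : j ≤ n - 2
    · push_cast [Nat.cast_sub hj, Nat.cast_sub hn]
      ring
    · have h1 : (n - 2).descFactorial j = 0 := Nat.descFactorial_eq_zero_iff_lt.2 (by omega)
      rw [h1]
      simp
  have hRD : ∀ j, R j = ((n - 2).descFactorial j : ℝ) * b ^ j := by
    intro j
    induction j with
    | zero => simp [R0]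
    | succ j ih =>
      rw [hR, ih, hD]
      push_cast
      ring
  have hND : ∀ j, N j = ((n - 2).descFactorial j : ℝ) * b ^ j := by
    intro j
    induction j with
    | zero => simp [N0]
    | succ j ih =>
      rw [hN, ih, hRD, hD]
      push_cast
      ring
  have hUM : ∀ j, U j = M j := by
    intro j
    induction j with
    | zero => rw [U0, M0]
    | succ j ih =>
      rw [hU, hM, ih, hRD, hND]
      push_cast
      ring
  induction i with
  | zero => simp [M0]
  | succ j ih =>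
    rw [hM, hUM, hND, ih, hD]
    rcases Nat.eq_zero_or_pos j with rfl | hj
    · simp
      ring
    · obtain ⟨k, rfl⟩ : ∃ k, j = k + 1 := ⟨j - 1, by omega⟩
      simp only [Nat.add_sub_cancel]
      rw [hD k]
      push_cast
      ring

theorem mob (mps : MpsStmt) (moa : MoaStmt) (mop : MopStmt) : MobStmt := by
  intro E _ _ _ _ _ f u e' a b hn hu he hue hf hsm i
  have hz : ∀ {j : ℕ} (x : E) (v : Fin j → E), gw (cns x (cns x v)) = 0 := fun x v => (mop x x v).2
  have hsw : ∀ {j : ℕ} (x y : E) (v : Fin j → E),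
    gw (cns x (cns y v)) = gw (cns y (cns x v)) := fun x y v => (mop x y v).1
  -- continuity and bounds
  have cid : ∀ j : ℕ, Continuous (fun w : Fin j → E => w) := fun j => continuous_id
  have bid : ∀ (j : ℕ) (w : Fin j → E), (∀ l, ‖w l‖ ≤ 1) → ∀ l, ‖w l‖ ≤ 1 := fun j w h => h
  let P : ∀ j : ℕ, ((Fin j → E) → ℝ) → ℝ := fun j Ψ =>
    mP (ℝ ∙ u)ᗮ j (fun w => Ψ w * ∏ l, f (w l))
  have h0 : ∀ Ψ : (Fin 0 → E) → ℝ, (∀ w, Ψ w = 1) → P 0 Ψ = 1 := by
    intro Ψ hΨ
    have := sph_facts.prob (E := E)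
    have : IsProbabilityMeasure (sphP E 0) := by
      unfold sphP
      infer_instance
    show ∫ x, Ψ _ * ∏ l : Fin 0, f _ ∂sphP E 0 = 1
    simp [hΨ]
  have g0 : ∀ w : Fin 0 → E, gw w = 1 := by
    intro w
    unfold gw
    simp
  have g1 : ∀ (x : E) (w : Fin 0 → E), ‖x‖ = 1 → gw (cns x w) = 1 := by
    intro x w hx
    rw [(gwa x w).1, hx, one_mul]
    exact g0 _
  have g2 : ∀ w : Fin 0 → E, gw (cns u (cns e' w)) = 1 := by
    intro w
    rw [(gwa u (cns e' w)).1, hu, one_mul]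
    have e : (fun l => po u ((cns e' w : Fin 1 → E) l)) = cns e' w := by
      funext l
      refine Fin.cases ?_ (fun k => k.elim0) l
      show po u e' = e'
      rw [po_formula, hue]
      simp
    rw [e]
    exact g1 e' w he
  have z0 : ∀ (j m : ℕ) (A : (Fin j → E) → (Fin m → E)), (∀ w, gw (A w) = 0) →
      mP (ℝ ∙ u)ᗮ j (fun w => gw (A w) ^ 2 * ∏ l, f (w l)) = 0 := by
    intro j m A hA
    have : (fun w : Fin j → E => gw (A w) ^ 2 * ∏ l, f (w l)) = fun _ => 0 := by
      funext w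
      rw [hA]
      ring
    rw [this]
    unfold mP
    simp
  refine mob_rec hn (fun j => P j (fun w => gw w ^ 2)) (fun j => P j (fun w => gw (cns u w) ^ 2))
    (fun j => P j (fun w => gw (cns e' w) ^ 2))
    (fun j => P j (fun w => gw (cns u (cns e' w)) ^ 2)) ?_ ?_ ?_ ?_ ?_ ?_ ?_ ?_ i
  · exact h0 _ fun w => by rw [g0]; norm_num
  · exact h0 _ fun w => by rw [g1 u w hu]; norm_num
  · exact h0 _ fun w => by rw [g1 e' w he]; norm_num
  · exact h0 _ fun w => by rw [g2]; norm_num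
  · intro j
    exact stepA mps moa hf hu he hsm (fun w => w) (fun w => w) (cid j) (bid j) (cid _) (bid _)
      (fun x w => rfl)
  · intro j
    have e := stepA mps moa hf hu he hsm (j := j) (fun w => cns u w) (fun w => cns u w)
      (cns_cont u (cid j)) (fun w hw => cns_le hu.le hw) (cns_cont u (cid _))
      (fun w hw => cns_le hu.le hw) (fun x w => hsw u x w)
    show mP (ℝ ∙ u)ᗮ (j + 1) (fun w => gw (cns u w) ^ 2 * ∏ l, f (w l)) = _
    rw [e, z0 j _ (fun w => cns u (cns u w)) (fun w => hz u w)]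
    congr 2
    show mP (ℝ ∙ u)ᗮ j (fun w => gw (cns e' (cns u w)) ^ 2 * ∏ l, f (w l)) =
      mP (ℝ ∙ u)ᗮ j (fun w => gw (cns u (cns e' w)) ^ 2 * ∏ l, f (w l))
    congr 1
    funext w
    rw [hsw]
  · intro j
    have e := stepA mps moa hf hu he hsm (j := j) (fun w => cns e' w) (fun w => cns e' w)
      (cns_cont e' (cid j)) (fun w hw => cns_le he.le hw) (cns_cont e' (cid _))
      (fun w hw => cns_le he.le hw) (fun x w => hsw e' x w)
    show mP (ℝ ∙ u)ᗮ (j + 1) (fun w => gw (cns e' w) ^ 2 * ∏ l, f (w l)) = _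
    rw [e, z0 j _ (fun w => cns e' (cns e' w)) (fun w => hz e' w)]
  · intro j
    have e := stepA mps moa hf hu he hsm (j := j) (fun w => cns u (cns e' w))
      (fun w => cns u (cns e' w))
      (cns_cont u (cns_cont e' (cid j))) (fun w hw => cns_le hu.le (cns_le he.le hw))
      (cns_cont u (cns_cont e' (cid _))) (fun w hw => cns_le hu.le (cns_le he.le hw))
      (fun x w => by
        rw [hsw x u]
        rw [(gwa u (cns e' (cns x w))).1, (gwa u (cns x (cns e' w))).1]
        congr 1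
        have e1 : (fun l => po u ((cns e' (cns x w) : Fin (j + 1 + 1) → E) l)) =
            cns (po u e') (cns (po u x) (fun l => po u (w l))) := by
          funext l
          refine Fin.cases rfl (fun k => ?_) l
          exact Fin.cases rfl (fun k' => rfl) k
        have e2 : (fun l => po u ((cns x (cns e' w) : Fin (j + 1 + 1) → E) l)) =
            cns (po u x) (cns (po u e') (fun l => po u (w l))) := by
          funext l
          refine Fin.cases rfl (fun k => ?_) l
          exact Fin.cases rfl (fun k' => rfl) k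
        rw [e1, e2, hsw])
    show mP (ℝ ∙ u)ᗮ (j + 1) (fun w => gw (cns u (cns e' w)) ^ 2 * ∏ l, f (w l)) = _
    rw [e, z0 j _ (fun w => cns u (cns u (cns e' w))) (fun w => hz u _),
      z0 j _ (fun w => cns e' (cns u (cns e' w))) (fun w => by
        rw [hsw, (gwa u (cns e' (cns e' w))).1]
        have e1 : (fun l => po u ((cns e' (cns e' w) : Fin (j + 1 + 1) → E) l)) =
            cns (po u e') (cns (po u e') (fun l => po u (w l))) := by
          funext l
          refine Fin.cases rfl (fun k => ?_) l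
          exact Fin.cases rfl (fun k' => rfl) k
        rw [e1, hz, mul_zero])]

end

end Pool.Agent.REV.H13
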